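import Mathlib

/-! The sum of `N(P)^(-s)` over the primes of a number field is `log (1/(s-1)) + O(1)`. -/

namespace Pool.Agent.P.MP_2ac10d_nt

open NumberField Filter Topology IsDedekindDomain
open scoped Classical

variable {E : Type} [Field E] [NumberField E]

theorem tendsto_card : Tendsto (fun n : ℕ => (∑ k ∈ Finset.Icc 1 n,
      (Nat.card {I : Ideal (𝓞 E) // Ideal.absNorm I = k} : ℝ)) / n) atTop
      (𝓝 (dedekindZeta_residue E)) := by
  refine ((Ideal.tendsto_norm_le_div_atTop₀ E).comp tendsto_natCast_atTop_atTop).congr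
    fun n => ?_
  simp only [Function.comp_apply, Nat.cast_le, ← Nat.cast_sum]
  congr 2
  rw [← add_left_inj 1, ← Ideal.card_norm_le_eq_card_norm_le_add_one,
    show Finset.Icc 1 n = Finset.Ioc 0 n from Finset.Icc_succ_left_eq_Ioc _ _,
    show 1 = Nat.card {I : Ideal (𝓞 E) // Ideal.absNorm I = 0} by
      simp [Ideal.absNorm_eq_zero_iff],
    Finset.sum_Ioc_add_eq_sum_Icc (n.zero_le),
    ← Finset.card_preimage_eq_sum_card_image_eq
      (fun k _ => Ideal.finite_setOfPred_absNorm_eq k)]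
  simp [Set.coe_eq_subtype]

theorem summable_card {σ : ℝ} (hσ : 1 < σ) :
    Summable fun m : ℕ =>
      (Nat.card {I : Ideal (𝓞 E) // Ideal.absNorm I = m} : ℝ) * (m : ℝ) ^ (-σ) := by
  have h1 := tendsto_card (E := E)
  have h2 : LSeriesSummable (fun n : ℕ =>
      ((Nat.card {I : Ideal (𝓞 E) // Ideal.absNorm I = n} : ℝ) : ℂ)) (σ : ℂ) := by
    refine LSeriesSummable_of_sum_norm_bigO_and_nonneg (r := 1) ?_ (fun _ => Nat.cast_nonneg _)
      zero_le_one (by simpa using hσ)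
    simp only [Real.rpow_one]
    refine Asymptotics.isBigO_of_div_tendsto_nhds ?_ _ h1
    filter_upwards [eventually_ne_atTop 0] with n hn h
    exact absurd (by exact_mod_cast h) hn
  refine h2.norm.congr fun m => ?_
  rw [LSeries.norm_term_eq]
  split_ifs with hm
  · rw [hm, Nat.cast_zero, Real.zero_rpow (by linarith), mul_zero]
  · rw [Complex.ofReal_re, Real.rpow_neg (Nat.cast_nonneg _), div_eq_mul_inv, Complex.norm_real,
      Real.norm_natCast]

theorem summable_norm {σ : ℝ} (hσ : 1 < σ) :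
    Summable fun I : Ideal (𝓞 E) => (Ideal.absNorm I : ℝ) ^ (-σ) := by
  refine (Equiv.sigmaFiberEquiv fun I : Ideal (𝓞 E) => Ideal.absNorm I).summable_iff.mp ?_
  have hf : ∀ m, Finite {I : Ideal (𝓞 E) // Ideal.absNorm I = m} :=
    fun m => Ideal.finite_setOfPred_absNorm_eq m
  refine (summable_sigma_of_nonneg fun _ => Real.rpow_nonneg (Nat.cast_nonneg _) _).mpr
    ⟨fun m => Summable.of_finite, (summable_card (E := E) hσ).congr fun m => ?_⟩
  have : ∀ I : {I : Ideal (𝓞 E) // Ideal.absNorm I = m},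
      ((fun I : Ideal (𝓞 E) => (Ideal.absNorm I : ℝ) ^ (-σ)) ∘
        (Equiv.sigmaFiberEquiv fun I : Ideal (𝓞 E) => Ideal.absNorm I)) ⟨m, I⟩ =
          (m : ℝ) ^ (-σ) := fun I => by
    show (Ideal.absNorm I.1 : ℝ) ^ (-σ) = _
    rw [I.2]
  exact ((tsum_congr this).trans (by rw [tsum_const, nsmul_eq_mul])).symm

theorem zeta_eq {σ : ℝ} (hσ : 1 < σ) :
    dedekindZeta E σ = ((∑' I : Ideal (𝓞 E), (Ideal.absNorm I : ℝ) ^ (-σ) : ℝ) : ℂ) := by
  have h := (summable_norm (E := E) hσ).hasSum.tsum_fiberwise fun I => Ideal.absNorm I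
  rw [← h.tsum_eq, Complex.ofReal_tsum, dedekindZeta, LSeries]
  refine tsum_congr fun m => ?_
  have hf : Finite ((fun I : Ideal (𝓞 E) => Ideal.absNorm I) ⁻¹' {m}) :=
    Ideal.finite_setOfPred_absNorm_eq m
  have : ∀ I : (fun I : Ideal (𝓞 E) => Ideal.absNorm I) ⁻¹' {m},
      (Ideal.absNorm I.1 : ℝ) ^ (-σ) = (m : ℝ) ^ (-σ) := fun I => by
    have : Ideal.absNorm I.1 = m := I.2
    rw [this]
  rw [tsum_congr this, tsum_const, nsmul_eq_mul, LSeries.term_def]
  split_ifs with hm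
  · rw [hm, Nat.cast_zero, Real.zero_rpow (by linarith), mul_zero, Complex.ofReal_zero]
  · rw [Complex.ofReal_mul, Complex.ofReal_cpow (Nat.cast_nonneg _), Complex.ofReal_neg,
      Complex.cpow_neg, div_eq_mul_inv]
    rfl

/-- the sieved sums -/
noncomputable def sv (f : Ideal (𝓞 E) → ℝ) (S : Finset (HeightOneSpectrum (𝓞 E)))
    (I : Ideal (𝓞 E)) : ℝ := if ∀ P ∈ S, ¬ P.asIdeal ∣ I then f I else 0

variable {f : Ideal (𝓞 E) → ℝ}

omit [NumberField E] in
theorem norm_sv (S : Finset (HeightOneSpectrum (𝓞 E))) (I : Ideal (𝓞 E)) :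
    ‖sv f S I‖ ≤ ‖f I‖ := by
  unfold sv
  split_ifs
  exacts [le_rfl, by simp]

theorem sv_insert (hs : Summable fun I => ‖f I‖) (hm : ∀ I J, f (I * J) = f I * f J)
    {S : Finset (HeightOneSpectrum (𝓞 E))} {P : HeightOneSpectrum (𝓞 E)} (hP : P ∉ S) :
    ∑' I, sv f (insert P S) I = (1 - f P.asIdeal) * ∑' I, sv f S I := by
  have hS : ∀ S, Summable (sv f S) := fun S =>
    Summable.of_norm_bounded hs (norm_sv S)
  have hi : Function.Injective fun J : Ideal (𝓞 E) => P.asIdeal * J :=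
    mul_right_injective₀ P.ne_bot
  have h1 : ∑' J, (sv f S (P.asIdeal * J) - sv f (insert P S) (P.asIdeal * J)) =
      ∑' I, (sv f S I - sv f (insert P S) I) := by
    refine hi.tsum_eq (f := fun I => sv f S I - sv f (insert P S) I) fun I hI => ?_
    by_contra hc
    refine hI ?_
    have : ¬ P.asIdeal ∣ I := fun ⟨J, hJ⟩ => hc ⟨J, hJ.symm⟩
    simp [sv, this]
  have h2 : ∀ J, sv f S (P.asIdeal * J) - sv f (insert P S) (P.asIdeal * J) =
      f P.asIdeal * sv f S J := fun J => by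
    have e : (∀ Q ∈ S, ¬ Q.asIdeal ∣ P.asIdeal * J) ↔ ∀ Q ∈ S, ¬ Q.asIdeal ∣ J :=
      forall₂_congr fun Q hQ => not_congr ⟨fun h => (Q.prime.dvd_or_dvd h).resolve_left
        fun g => hP (by
          have : P = Q := HeightOneSpectrum.ext
            (P.isMaximal.eq_of_le Q.isPrime.ne_top (Ideal.le_of_dvd g))
          rwa [this]), fun h => h.mul_left _⟩
    have e' : sv f (insert P S) (P.asIdeal * J) = 0 :=
      if_neg fun h => h P (Finset.mem_insert_self _ _) (dvd_mul_right _ _)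
    rw [e', sub_zero]
    unfold sv
    rw [hm]
    by_cases h : ∀ Q ∈ S, ¬ Q.asIdeal ∣ J
    · rw [if_pos h, if_pos (e.mpr h)]
    · rw [if_neg h, if_neg (mt e.mp h), mul_zero]
  rw [tsum_congr h2, tsum_mul_left, (hS _).tsum_sub (hS _)] at h1
  linear_combination h1

theorem sv_eq (hs : Summable fun I => ‖f I‖) (hm : ∀ I J, f (I * J) = f I * f J)
    (S : Finset (HeightOneSpectrum (𝓞 E))) :
    ∑' I, sv f S I = (∏ P ∈ S, (1 - f P.asIdeal)) * ∑' I, f I := by
  induction S using Finset.induction_on with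
  | empty => simp [sv]
  | insert P S hP ih => rw [sv_insert hs hm hP, ih, Finset.prod_insert hP, mul_assoc]

theorem tendsto_sv (hs : Summable fun I => ‖f I‖) (h0 : f ⊥ = 0) (h1 : f ⊤ = 1) :
    Tendsto (fun S => ∑' I, sv f S I) atTop (𝓝 1) := by
  have h := tendsto_tsum_of_dominated_convergence (𝓕 := atTop) (f := sv f)
    (g := fun I => if I = ⊤ then (1 : ℝ) else 0) hs (fun I => ?_)
    (Eventually.of_forall fun S => norm_sv S)
  · rwa [tsum_ite_eq] at h
  · split_ifs with hI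
    · refine tendsto_const_nhds.congr fun S => ?_
      rw [hI, sv, if_pos fun P _ h => P.isPrime.ne_top (top_le_iff.mp (Ideal.le_of_dvd h)), h1]
    · by_cases hb : I = ⊥
      · refine tendsto_const_nhds.congr fun S => ?_
        rw [hb, sv, h0, ite_self]
      · obtain ⟨M, hM, hle⟩ := Ideal.exists_le_maximal I hI
        let P : HeightOneSpectrum (𝓞 E) :=
          ⟨M, hM.isPrime, fun e => hb (le_bot_iff.mp (hle.trans e.le))⟩
        refine tendsto_const_nhds.congr' ?_
        filter_upwards [eventually_ge_atTop {P}] with S hS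
        exact (if_neg fun h => h P (hS (Finset.mem_singleton_self P))
          (Ideal.dvd_iff_le.mpr hle)).symm

theorem log_bd {x : ℝ} (h0 : 0 ≤ x) (h1 : x ≤ 1 / 2) : |Real.log (1 - x) + x| ≤ 2 * x ^ 2 := by
  have h := Real.abs_log_sub_add_sum_range_le (x := x) (by rw [abs_of_nonneg h0]; linarith) 1
  simp only [Finset.sum_range_one, zero_add, pow_one, Nat.cast_zero, div_one,
    abs_of_nonneg h0] at h
  rw [add_comm]
  refine h.trans ?_
  rw [div_le_iff₀ (by linarith), one_add_one_eq_two]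
  nlinarith [mul_nonneg (sq_nonneg x) (show 0 ≤ 1 - 2 * x by linarith)]

theorem euler (hs : Summable fun I => ‖f I‖) (hm : ∀ I J, f (I * J) = f I * f J)
    (h0 : f ⊥ = 0) (h1 : f ⊤ = 1)
    (hp : ∀ P : HeightOneSpectrum (𝓞 E), 0 ≤ f P.asIdeal ∧ f P.asIdeal ≤ 1 / 2) :
    |∑' P : HeightOneSpectrum (𝓞 E), f P.asIdeal - Real.log (∑' I, f I)| ≤
      2 * ∑' P : HeightOneSpectrum (𝓞 E), f P.asIdeal ^ 2 := by
  have hP : Summable fun P : HeightOneSpectrum (𝓞 E) => f P.asIdeal :=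
    hs.of_norm.comp_injective fun P Q h => HeightOneSpectrum.ext h
  have hP2 : Summable fun P : HeightOneSpectrum (𝓞 E) => 2 * f P.asIdeal ^ 2 :=
    hP.of_nonneg_of_le (fun P => by positivity) fun P => by nlinarith [hp P]
  have hd : Summable fun P : HeightOneSpectrum (𝓞 E) => Real.log (1 - f P.asIdeal) + f P.asIdeal :=
    Summable.of_norm_bounded hP2 fun P => log_bd (hp P).1 (hp P).2
  have hl : Summable fun P : HeightOneSpectrum (𝓞 E) => Real.log (1 - f P.asIdeal) :=
    (hd.sub hP).congr fun P => by ring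
  have H := hl.hasSum.rexp
  have e : (Real.exp ∘ fun P : HeightOneSpectrum (𝓞 E) => Real.log (1 - f P.asIdeal)) =
      fun P => 1 - f P.asIdeal := funext fun P => Real.exp_log (by linarith [(hp P).2])
  rw [e] at H
  have H' : Tendsto (fun S : Finset (HeightOneSpectrum (𝓞 E)) => ∏ P ∈ S, (1 - f P.asIdeal))
    atTop _ := H
  have h2 := tendsto_nhds_unique (H'.mul_const (∑' I, f I))
    ((tendsto_sv hs h0 h1).congr fun S => sv_eq hs hm S)
  rw [eq_inv_of_mul_eq_one_right h2, Real.log_inv, Real.log_exp, sub_neg_eq_add, add_comm,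
    ← hl.tsum_add hP, ← tsum_mul_left]
  exact tsum_of_norm_bounded (f := fun P : HeightOneSpectrum (𝓞 E) =>
    Real.log (1 - f P.asIdeal) + f P.asIdeal) hP2.hasSum fun P => log_bd (hp P).1 (hp P).2

theorem prime_sum (E : Type) [Field E] [NumberField E] : ∃ C : ℝ, ∀ᶠ s : ℝ in 𝓝[>] 1,
    |∑' P : HeightOneSpectrum (𝓞 E), (Ideal.absNorm P.asIdeal : ℝ) ^ (-s) -
      Real.log (1 / (s - 1))| ≤ C := by
  have hr := dedekindZeta_residue_pos E
  have h1 : Tendsto (fun s : ℝ => (s - 1) * ∑' I : Ideal (𝓞 E), (Ideal.absNorm I : ℝ) ^ (-s))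
      (𝓝[>] 1) (𝓝 (dedekindZeta_residue E)) := by
    have h := (Complex.continuous_re.tendsto _).comp (tendsto_sub_one_mul_dedekindZeta_nhdsGT E)
    refine h.congr' ?_
    filter_upwards [self_mem_nhdsWithin] with s hs
    rw [Function.comp_apply, zeta_eq hs, ← Complex.ofReal_one, ← Complex.ofReal_sub,
      ← Complex.ofReal_mul, Complex.ofReal_re]
  have h2 := ((Real.continuousAt_log hr.ne').tendsto.comp h1).abs.eventually
    (ge_mem_nhds (lt_add_one _))
  have h3 := h1.eventually (lt_mem_nhds hr)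
  have hN : ∀ P : HeightOneSpectrum (𝓞 E), (2 : ℝ) ≤ Ideal.absNorm P.asIdeal := fun P => by
    exact_mod_cast NumberField.HeightOneSpectrum.one_lt_absNorm P
  have hS2 : Summable fun P : HeightOneSpectrum (𝓞 E) =>
      (Ideal.absNorm P.asIdeal : ℝ) ^ (-(2 : ℝ)) :=
    (summable_norm (E := E) one_lt_two).comp_injective fun P Q h => HeightOneSpectrum.ext h
  refine ⟨2 * ∑' P : HeightOneSpectrum (𝓞 E), (Ideal.absNorm P.asIdeal : ℝ) ^ (-(2 : ℝ)) +
    (|Real.log (dedekindZeta_residue E)| + 1), ?_⟩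
  filter_upwards [self_mem_nhdsWithin, h2, h3] with s hs h2 h3
  have hs : 1 < s := hs
  have hq : ∀ P : HeightOneSpectrum (𝓞 E),
      (Ideal.absNorm P.asIdeal : ℝ) ^ (-s) ≤ (Ideal.absNorm P.asIdeal : ℝ) ^ (-(1 : ℝ)) :=
    fun P => Real.rpow_le_rpow_of_exponent_le (by linarith [hN P]) (by linarith)
  have h4 := euler (f := fun I : Ideal (𝓞 E) => (Ideal.absNorm I : ℝ) ^ (-s))
    ((summable_norm hs).congr fun I =>
      (Real.norm_of_nonneg (Real.rpow_nonneg (Nat.cast_nonneg _) _)).symm)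
    (fun I J => by rw [map_mul, Nat.cast_mul,
      Real.mul_rpow (Nat.cast_nonneg _) (Nat.cast_nonneg _)])
    (by simp [Real.zero_rpow (show -s ≠ 0 by linarith)]) (by simp [← Ideal.one_eq_top])
    fun P => ⟨Real.rpow_nonneg (Nat.cast_nonneg _) _, (hq P).trans (by
      rw [Real.rpow_neg_one, ← one_div]
      exact one_div_le_one_div_of_le two_pos (hN P))⟩
  have h5 : ∀ P : HeightOneSpectrum (𝓞 E), ((Ideal.absNorm P.asIdeal : ℝ) ^ (-s)) ^ 2 ≤
      (Ideal.absNorm P.asIdeal : ℝ) ^ (-(2 : ℝ)) := fun P => by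
    rw [← Real.rpow_natCast, ← Real.rpow_mul (Nat.cast_nonneg _)]
    exact Real.rpow_le_rpow_of_exponent_le (by linarith [hN P]) (by push_cast; linarith)
  have h6 := (hS2.of_nonneg_of_le (fun P => by positivity) h5).tsum_le_tsum h5 hS2
  have hZ : 0 < ∑' I : Ideal (𝓞 E), (Ideal.absNorm I : ℝ) ^ (-s) :=
    (pos_iff_pos_of_mul_pos h3).mp (by linarith)
  simp only [Function.comp_apply] at h2
  rw [Real.log_mul (by linarith) hZ.ne'] at h2
  rw [one_div, Real.log_inv]
  rw [abs_le] at h2 h4 ⊢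
  constructor <;> linarith [h2.1, h2.2, h4.1, h4.2]

end Pool.Agent.P.MP_2ac10d_nt
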