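import Pool.Agent.P.MP_2ac10d_nt.DA

/-! Dirichlet density of the primes that split completely in a Galois number field. -/

namespace Pool.Agent.P.MP_2ac10d_nt

open NumberField Filter Topology IsDedekindDomain Ideal
open scoped Classical

/-- `p` has a prime of degree one in `K` -/
def Spl (K : Type) [Field K] (p : ℕ) : Prop := Nonempty (𝓞 K →+* ZMod p)

/-- the weighted prime sum -/
noncomputable def F (f : ℕ → ℝ) (s : ℝ) : ℝ := ∑' n : ℕ, if n.Prime then f n * (n : ℝ) ^ (-s) else 0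

/-- the weight `f` has Dirichlet density `δ`, with bounded error -/
def HasD (f : ℕ → ℝ) (δ : ℝ) : Prop :=
  (∃ B, ∀ n, |f n| ≤ B) ∧ ∃ C, ∀ᶠ s : ℝ in 𝓝[>] 1, |F f s - δ * Real.log (1 / (s - 1))| ≤ C

theorem summ {f : ℕ → ℝ} {B : ℝ} (hB : ∀ n, |f n| ≤ B) {s : ℝ} (hs : 1 < s) :
    Summable fun n : ℕ => if n.Prime then f n * (n : ℝ) ^ (-s) else 0 := by
  refine Summable.of_norm_bounded
    ((Real.summable_nat_rpow.mpr (show -s < -1 by linarith)).mul_left B) fun n => ?_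
  have h0 : 0 ≤ (n : ℝ) ^ (-s) := Real.rpow_nonneg (Nat.cast_nonneg _) _
  split_ifs
  · rw [Real.norm_eq_abs, abs_mul, abs_of_nonneg h0]
    exact mul_le_mul_of_nonneg_right (hB n) h0
  · rw [norm_zero]
    exact mul_nonneg ((abs_nonneg _).trans (hB n)) h0

theorem HasD.add {f g : ℕ → ℝ} {a b : ℝ} (hf : HasD f a) (hg : HasD g b) :
    HasD (fun n => f n + g n) (a + b) := by
  obtain ⟨⟨B, hB⟩, C, hC⟩ := hf
  obtain ⟨⟨B', hB'⟩, C', hC'⟩ := hg
  refine ⟨⟨B + B', fun n => (abs_add_le _ _).trans (add_le_add (hB n) (hB' n))⟩, C + C', ?_⟩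
  filter_upwards [hC, hC', self_mem_nhdsWithin] with s h1 h2 hs
  have : F (fun n => f n + g n) s = F f s + F g s := by
    unfold F
    rw [← (summ hB hs).tsum_add (summ hB' hs)]
    refine tsum_congr fun n => ?_
    split_ifs <;> ring
  rw [this, abs_le] at *
  constructor <;> linarith [h1.1, h1.2, h2.1, h2.2]

theorem HasD.smul {f : ℕ → ℝ} {a : ℝ} (c : ℝ) (hf : HasD f a) :
    HasD (fun n => c * f n) (c * a) := by
  obtain ⟨⟨B, hB⟩, C, hC⟩ := hf
  refine ⟨⟨|c| * B, fun n => by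
    rw [abs_mul]; exact mul_le_mul_of_nonneg_left (hB n) (abs_nonneg _)⟩, |c| * C, ?_⟩
  filter_upwards [hC] with s h1
  have : F (fun n => c * f n) s = c * F f s := by
    unfold F
    rw [← tsum_mul_left]
    refine tsum_congr fun n => ?_
    split_ifs <;> ring
  rw [this, mul_assoc, ← mul_sub, abs_mul]
  exact mul_le_mul_of_nonneg_left h1 (abs_nonneg _)

theorem hasD_zero : HasD (fun _ => 0) 0 :=
  ⟨⟨0, fun _ => by simp⟩, 0, Eventually.of_forall fun s => by simp [F]⟩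

/-- comparison of weights that is valid for all large primes -/
theorem F_le {f g : ℕ → ℝ} {B : ℝ} (hf : ∀ n, |f n| ≤ B) (hg : ∀ n, |g n| ≤ B) (M : ℕ)
    (h : ∀ p, p.Prime → M ≤ p → f p ≤ g p) {s : ℝ} (hs : 1 < s) :
    F f s ≤ F g s + M * (2 * B) := by
  have hB : 0 ≤ B := (abs_nonneg _).trans (hf 0)
  have h1 : HasSum (fun n : ℕ => if n < M then 2 * B else 0) (M * (2 * B)) := by
    have := hasSum_sum_of_ne_finset_zero (L := SummationFilter.unconditional ℕ)
      (f := fun n : ℕ => if n < M then 2 * B else 0)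
      (s := Finset.range M) fun b hb => if_neg (by simpa using hb)
    rwa [Finset.sum_congr rfl fun b hb => if_pos (Finset.mem_range.mp hb), Finset.sum_const,
      Finset.card_range, nsmul_eq_mul] at this
  unfold F
  rw [← h1.tsum_eq, ← (summ hg hs).tsum_add h1.summable]
  refine (summ hf hs).tsum_le_tsum (fun n => ?_) ((summ hg hs).add h1.summable)
  have h0 : 0 ≤ (n : ℝ) ^ (-s) := Real.rpow_nonneg (Nat.cast_nonneg _) _
  by_cases hp : n.Prime
  · rw [if_pos hp, if_pos hp]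
    split_ifs with hn
    · have h2 : (n : ℝ) ^ (-s) ≤ 1 :=
        Real.rpow_le_one_of_one_le_of_nonpos (by exact_mod_cast hp.one_le) (by linarith)
      have h3 := abs_le.mp (hf n)
      have h4 := abs_le.mp (hg n)
      nlinarith [mul_le_mul_of_nonneg_right (show f n - g n ≤ 2 * B by linarith) h0]
    · rw [add_zero]
      exact mul_le_mul_of_nonneg_right (h n hp (not_lt.mp hn)) h0
  · rw [if_neg hp, if_neg hp]
    split_ifs <;> linarith

theorem HasD.congr {f g : ℕ → ℝ} {a B : ℝ} (hf : HasD f a) (hg : ∀ n, |g n| ≤ B) (M : ℕ)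
    (h : ∀ p, p.Prime → M ≤ p → f p = g p) : HasD g a := by
  obtain ⟨⟨B', hB'⟩, C, hC⟩ := hf
  have h1 : ∀ n, |f n| ≤ max B B' := fun n => (hB' n).trans (le_max_right _ _)
  have h2 : ∀ n, |g n| ≤ max B B' := fun n => (hg n).trans (le_max_left _ _)
  refine ⟨⟨B, hg⟩, C + M * (2 * max B B'), ?_⟩
  filter_upwards [hC, self_mem_nhdsWithin] with s h3 hs
  have h4 := F_le h1 h2 M (fun p hp hM => (h p hp hM).le) hs
  have h5 := F_le h2 h1 M (fun p hp hM => (h p hp hM).ge) hs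
  rw [abs_le] at *
  constructor <;> linarith [h3.1, h3.2]

variable {K : Type} [Field K] [NumberField K]

theorem spl_iff {p : ℕ} (hp : p.Prime) :
    Spl K p ↔ ∃ P : Ideal (𝓞 K), P.IsPrime ∧ P.LiesOver (span {(p : ℤ)}) ∧ absNorm P = p := by
  have := Fact.mk hp
  constructor
  · rintro ⟨φ⟩
    have hs : Function.Surjective φ := ZMod.ringHom_surjective φ
    refine ⟨RingHom.ker φ, RingHom.ker_isPrime φ, ?_, ?_⟩
    · refine (liesOver_span_iff (RingHom.ker_isPrime φ).ne_top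
        (Nat.prime_iff_prime_int.mp hp)).mpr ?_
      simp [RingHom.mem_ker]
    · rw [absNorm_apply, Submodule.cardQuot_apply,
        Nat.card_congr (RingHom.quotientKerEquivOfSurjective hs).toEquiv, Nat.card_zmod]
  · rintro ⟨P, h1, h2, h3⟩
    rw [absNorm_apply, Submodule.cardQuot_apply] at h3
    have : Finite (𝓞 K ⧸ P) := Nat.finite_of_card_ne_zero (h3 ▸ hp.ne_zero)
    have := Fintype.ofFinite (𝓞 K ⧸ P)
    exact ⟨(ZMod.ringEquivOfPrime (𝓞 K ⧸ P) hp
      (by rw [← Nat.card_eq_fintype_card, h3])).symm.toRingHom.comp (Ideal.Quotient.mk P)⟩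

/-- the rational prime below `P` -/
noncomputable def bel (P : HeightOneSpectrum (𝓞 K)) : ℕ := absNorm (under ℤ P.asIdeal)

omit [NumberField K] in
theorem bel_prime (P : HeightOneSpectrum (𝓞 K)) : (bel P).Prime :=
  have := P.isPrime
  have : NeZero P.asIdeal := ⟨P.ne_bot⟩
  Nat.absNorm_under_prime _

theorem fiber [IsGalois ℚ K] {p : ℕ} (hp : p.Prime) : ∃ r f : ℕ, 1 ≤ f ∧
    r ≤ Module.finrank ℚ K ∧ (f = 1 ↔ Spl K p) ∧
    (¬ (p : ℤ) ∣ discr K → f = 1 → r = Module.finrank ℚ K) ∧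
    ∀ s : ℝ, ∑' P : bel (K := K) ⁻¹' {p}, (absNorm P.1.asIdeal : ℝ) ^ (-s) =
      r * ((p : ℝ) ^ f) ^ (-s) := by
  have := Fact.mk hp
  have hp' := Nat.prime_iff_prime_int.mp hp
  have h := ncard_primesOver_mul_ramificationIdxIn_mul_inertiaDegIn (span {(p : ℤ)}) (𝓞 K)
    Gal(K/ℚ)
  rw [IsGalois.card_aut_eq_finrank] at h
  have he := ramificationIdxIn_ne_zero (B := 𝓞 K) Gal(K/ℚ) (p := span {(p : ℤ)})
  have hf := inertiaDegIn_ne_zero (B := 𝓞 K) Gal(K/ℚ) (p := span {(p : ℤ)})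
  have hN : ∀ P : Ideal (𝓞 K), P.IsPrime → P.LiesOver (span {(p : ℤ)}) →
      absNorm P = p ^ inertiaDegIn (span {(p : ℤ)}) (𝓞 K) := fun P _ _ => by
    rw [inertiaDegIn_eq_inertiaDeg _ P Gal(K/ℚ), pow_inertiaDeg]
  obtain ⟨⟨Q, hQ1, hQ2⟩⟩ := (inferInstance : Nonempty (primesOver (span {(p : ℤ)}) (𝓞 K)))
  have hl : ∀ P : bel (K := K) ⁻¹' {p}, P.1.asIdeal.LiesOver (span {(p : ℤ)}) := fun P => by
    have h1 : absNorm (under ℤ P.1.asIdeal) = p := P.2
    have h2 := Int.liesOver_span_absNorm P.1.asIdeal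
    rwa [h1] at h2
  refine ⟨_, _, Nat.one_le_iff_ne_zero.mpr hf,
    h ▸ Nat.le_mul_of_pos_right _ (Nat.pos_of_ne_zero (mul_ne_zero he hf)), ?_, ?_, fun s => ?_⟩
  · rw [spl_iff hp]
    refine ⟨fun e => ⟨Q, hQ1, hQ2, by rw [hN Q hQ1 hQ2, e, pow_one]⟩, fun ⟨P, h1, h2, h3⟩ => ?_⟩
    rw [hN P h1 h2] at h3
    exact Nat.pow_right_injective hp.two_le (h3.trans (pow_one p).symm)
  · intro hd e
    have h1 := (not_dvd_discr_iff_forall_mem K (𝓞 K) hp').mp hd Q hQ1
      ((liesOver_span_iff hQ1.ne_top hp').mp hQ2)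
    rw [← h, e, ramificationIdxIn_eq_ramificationIdx _ Q Gal(K/ℚ),
      Ideal.ramificationIdx_eq_one_iff.mpr h1, mul_one, mul_one]
  · rw [tsum_congr fun P : bel (K := K) ⁻¹' {p} =>
      show (absNorm P.1.asIdeal : ℝ) ^ (-s) =
        ((p : ℝ) ^ inertiaDegIn (span {(p : ℤ)}) (𝓞 K)) ^ (-s) by
          rw [hN _ P.1.isPrime (hl P), Nat.cast_pow], tsum_const, nsmul_eq_mul,
      ← Nat.card_coe_set_eq]
    congr 2
    refine Nat.card_eq_of_bijective (fun P => ⟨P.1.asIdeal, P.1.isPrime, hl P⟩)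
      ⟨fun P P' e => Subtype.ext (HeightOneSpectrum.ext (congrArg Subtype.val e)),
        fun ⟨P, h1, h2⟩ => ⟨⟨⟨P, h1, ne_bot_of_liesOver_of_ne_bot
          (p := span {(p : ℤ)}) (by simpa using hp.ne_zero) P⟩, ?_⟩, rfl⟩⟩
    show absNorm (under ℤ P) = p
    rw [← h2.over]
    simp

theorem hasD_spl (K : Type) [Field K] [NumberField K] [IsGalois ℚ K] :
    HasD (fun p => if Spl K p then 1 else 0) (1 / Module.finrank ℚ K) := by
  have hb : ∀ n, |(if Spl K n then 1 else 0 : ℝ)| ≤ 1 := fun n => by split_ifs <;> simp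
  obtain ⟨C, hC⟩ := prime_sum K
  set N : ℝ := ((Module.finrank ℚ K : ℕ) : ℝ) with hN
  have hN0 : 0 < N := by rw [hN]; exact_mod_cast Module.finrank_pos
  let e : ℕ → ℝ := fun n => N * (n : ℝ) ^ (-(2 : ℝ)) + if n ≤ (discr K).natAbs then N else 0
  have he : Summable e := ((Real.summable_nat_rpow.mpr (by norm_num)).mul_left N).add
    (summable_of_ne_finset_zero (s := Finset.range ((discr K).natAbs + 1))
      fun b hb => if_neg (by simpa using hb))
  refine ⟨⟨1, hb⟩, (C + ∑' n, e n) / N, ?_⟩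
  filter_upwards [hC, self_mem_nhdsWithin] with s h1 hs
  have hs : 1 < s := hs
  have h2 := ((summable_norm (E := K) hs).comp_injective
    (f := fun I : Ideal (𝓞 K) => (absNorm I : ℝ) ^ (-s))
    fun P Q (h : HeightOneSpectrum.asIdeal P = Q.asIdeal) =>
      HeightOneSpectrum.ext h).hasSum.tsum_fiberwise bel
  simp only [Function.comp_apply] at h2
  have h3 := (summ hb hs).hasSum.mul_left N
  have h4 := tsum_of_norm_bounded he.hasSum (f := fun n : ℕ =>
    ∑' P : bel (K := K) ⁻¹' {n}, (absNorm P.1.asIdeal : ℝ) ^ (-s) -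
      N * if n.Prime then (if Spl K n then 1 else 0) * (n : ℝ) ^ (-s) else 0) fun n => by
    have h0 : 0 ≤ N * (n : ℝ) ^ (-(2 : ℝ)) := by positivity
    have h0' : 0 ≤ if n ≤ (discr K).natAbs then N else 0 := by split_ifs <;> linarith
    by_cases hp : n.Prime
    · obtain ⟨r, f, f1, r1, f2, r2, hT⟩ := fiber (K := K) hp
      have r1 : (r : ℝ) ≤ N := by rw [hN]; exact_mod_cast r1
      have r0 : (0 : ℝ) ≤ r := Nat.cast_nonneg _
      have n1 : (1 : ℝ) ≤ n := by exact_mod_cast hp.one_le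
      rw [hT, if_pos hp, Real.norm_eq_abs]
      by_cases hf : f = 1
      · rw [if_pos (f2.mp hf), hf, pow_one, one_mul, ← sub_mul]
        have t0 : 0 ≤ (n : ℝ) ^ (-s) := by positivity
        have t1 : (n : ℝ) ^ (-s) ≤ 1 := Real.rpow_le_one_of_one_le_of_nonpos n1 (by linarith)
        by_cases hd : (n : ℤ) ∣ discr K
        · have : n ≤ (discr K).natAbs := Nat.le_of_dvd (Int.natAbs_pos.mpr (discr_ne_zero K))
            (Int.natCast_dvd.mp hd)
          simp only [e, if_pos this]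
          rw [abs_le]
          constructor <;> nlinarith
        · rw [r2 hd hf, sub_self, zero_mul, abs_zero]
          exact add_nonneg h0 h0'
      · rw [if_neg (mt f2.mpr hf), zero_mul, mul_zero, sub_zero, abs_of_nonneg (by positivity)]
        refine le_add_of_le_of_nonneg (mul_le_mul r1 ?_ (by positivity) hN0.le) h0'
        rw [← Real.rpow_natCast, ← Real.rpow_mul (Nat.cast_nonneg _)]
        have : (2 : ℝ) ≤ f := by exact_mod_cast (show 2 ≤ f by omega)
        exact Real.rpow_le_rpow_of_exponent_le n1 (by nlinarith)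
    · have : IsEmpty (bel (K := K) ⁻¹' {n}) := ⟨fun P => hp (by
        have : bel P.1 = n := P.2
        exact this ▸ bel_prime P.1)⟩
      rw [tsum_empty, if_neg hp, mul_zero, sub_zero, norm_zero]
      exact add_nonneg h0 h0'
  rw [(h2.sub h3).tsum_eq, Real.norm_eq_abs] at h4
  rw [le_div_iff₀ hN0, ← abs_of_pos hN0, ← abs_mul, abs_of_pos hN0, sub_mul,
    mul_right_comm, one_div_mul_cancel hN0.ne', one_mul]
  unfold F
  rw [abs_le] at *
  constructor <;> linarith [h1.1, h1.2, h4.1, h4.2]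

end Pool.Agent.P.MP_2ac10d_nt
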