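import Pool.Agent.P.MP_2ac10d_nt.DB

/-! Splitting of primes in fields generated by radicals. -/

namespace Pool.Agent.P.MP_2ac10d_nt

open NumberField Ideal IntermediateField Polynomial
open scoped Classical

/-- the ambient field -/
abbrev Om : Type := AlgebraicClosure ℚ

/-- `X^m - a` splits modulo `p` -/
def Ev (g : ℕ × ℤ) (p : ℕ) : Prop := g.1 ∣ p - 1 ∧ (g.2 : ZMod p) ^ ((p - 1) / g.1) = 1

/-- the roots of `X^m - a` -/
def rts (g : ℕ × ℤ) : Set Om := {z | z ^ g.1 = g.2}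

/-- the field generated by the roots -/
noncomputable def KK (T : Finset (ℕ × ℤ)) : IntermediateField ℚ Om :=
  adjoin ℚ {z | ∃ g ∈ T, z ∈ rts g}

theorem rts_int {g : ℕ × ℤ} (hg : 0 < g.1) {z : Om} (hz : z ∈ rts g) : IsIntegral ℤ z :=
  IsIntegral.of_pow hg (by rw [show z ^ g.1 = g.2 from hz]; exact isIntegral_algebraMap)

theorem rts_fin {g : ℕ × ℤ} (hg : 0 < g.1) : (rts g).Finite :=
  (nthRoots g.1 (g.2 : Om)).finite_toSet.subset fun _ hz => (mem_nthRoots hg).mpr hz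

theorem mem_KK {T : Finset (ℕ × ℤ)} {g : ℕ × ℤ} (hg : g ∈ T) {z : Om} (hz : z ∈ rts g) :
    z ∈ KK T := subset_adjoin _ _ ⟨g, hg, hz⟩

theorem nf_KK {T : Finset (ℕ × ℤ)} (hT : ∀ g ∈ T, 0 < g.1) : NumberField (KK T) := by
  have : Finite {z | ∃ g ∈ T, z ∈ rts g} :=
    (T.finite_toSet.biUnion fun g hg => rts_fin (hT g hg)).subset fun z ⟨g, h1, h2⟩ =>
      Set.mem_biUnion h1 h2
  have : FiniteDimensional ℚ (KK T) :=
    finiteDimensional_adjoin fun z ⟨g, h1, h2⟩ => (rts_int (hT g h1) h2).tower_top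
  exact NumberField.mk

theorem gal_KK (T : Finset (ℕ × ℤ)) : IsGalois ℚ (KK T) := by
  have : IsAlgClosure ℚ Om := AlgebraicClosure.instIsAlgClosure ℚ
  have : Normal ℚ (KK T) := by
    refine normal_iff_forall_map_le.mpr fun σ => ?_
    rw [KK, adjoin_map]
    refine adjoin.mono _ _ _ ?_
    rintro _ ⟨z, ⟨g, h1, h2⟩, rfl⟩
    refine ⟨g, h1, ?_⟩
    show σ z ^ g.1 = g.2
    rw [← map_pow, show z ^ g.1 = g.2 from h2, map_intCast]
  exact IsGalois.mk

theorem ev_of_spl {K : IntermediateField ℚ Om} {g : ℕ × ℤ} (hK : rts g ⊆ K) {p : ℕ}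
    (hp : p.Prime) (h1 : ¬ p ∣ g.1) (h2 : ¬ (p : ℤ) ∣ g.2) (h : Spl K p) : Ev g p := by
  have := Fact.mk hp
  obtain ⟨φ⟩ := h
  have hg : 0 < g.1 := Nat.pos_of_ne_zero fun e => h1 (e ▸ dvd_zero p)
  have : NeZero g.1 := ⟨hg.ne'⟩
  have : NeZero (g.1 : ZMod p) := ⟨fun e => h1 ((ZMod.natCast_eq_zero_iff _ _).mp e)⟩
  have ha : (g.2 : ZMod p) ≠ 0 := fun e => h2 ((ZMod.intCast_zmod_eq_zero_iff_dvd _ _).mp e)
  have ha' : (g.2 : Om) ≠ 0 := Int.cast_ne_zero.mpr fun e => h2 (e ▸ dvd_zero _)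
  obtain ⟨z, hz⟩ := IsAlgClosed.exists_pow_nat_eq (g.2 : Om) hg
  obtain ⟨ζ, hζ⟩ := HasEnoughRootsOfUnity.exists_primitiveRoot Om g.1
  have hz0 : z ≠ 0 := fun e => ha' (by rw [← hz, e, zero_pow hg.ne'])
  have hzK : z ∈ K := hK hz
  have hζK : ζ ∈ K := by
    have : ζ * z ∈ K := hK (show (ζ * z) ^ g.1 = g.2 by rw [mul_pow, hζ.pow_eq_one, one_mul, hz])
    simpa [hz0] using div_mem this hzK
  have inj : Function.Injective (algebraMap K Om) := (algebraMap K Om).injective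
  let z' : 𝓞 K := ⟨⟨z, hzK⟩, (isIntegral_algebraMap_iff inj).mp (rts_int hg hz)⟩
  let ζ' : 𝓞 K := ⟨⟨ζ, hζK⟩, (isIntegral_algebraMap_iff inj).mp (hζ.isIntegral hg)⟩
  have inj' : Function.Injective ((algebraMap K Om).comp (algebraMap (𝓞 K) K)) :=
    inj.comp RingOfIntegers.coe_injective
  have e1 : z' ^ g.1 = g.2 := inj' (by rw [map_pow, map_intCast]; exact hz)
  have e2 : IsPrimitiveRoot ζ' g.1 :=
    IsPrimitiveRoot.of_map_of_injective
      (f := (algebraMap K Om).comp (algebraMap (𝓞 K) K)) hζ inj'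
  have e3 : IsPrimitiveRoot (φ ζ') g.1 := by
    rw [← isRoot_cyclotomic_iff, ← map_cyclotomic g.1 φ]
    exact (e2.isRoot_cyclotomic hg).map
  have e4 : φ z' ^ g.1 = g.2 := by rw [← map_pow, e1, map_intCast]
  have hd : g.1 ∣ p - 1 := e3.dvd_of_pow_eq_one _
    (ZMod.pow_card_sub_one_eq_one (e3.ne_zero hg.ne'))
  refine ⟨hd, ?_⟩
  rw [← e4, ← pow_mul, Nat.mul_div_cancel' hd]
  exact ZMod.pow_card_sub_one_eq_one fun e => ha (by rw [← e4, e, zero_pow hg.ne'])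

theorem spl_of_ev {T : Finset (ℕ × ℤ)} {p : ℕ} (hp : p.Prime)
    (h1 : ∀ g ∈ T, ¬ p ∣ g.1) (h : ∀ g ∈ T, Ev g p) : Spl (KK T) p := by
  have := Fact.mk hp
  have hT : ∀ g ∈ T, 0 < g.1 := fun g hg => Nat.pos_of_ne_zero fun e => h1 g hg (e ▸ dvd_zero p)
  have := nf_KK hT
  have := gal_KK T
  obtain ⟨⟨Q, hQ1, hQ2⟩⟩ :=
    (inferInstance : Nonempty (primesOver (span {(p : ℤ)}) (𝓞 (KK T))))
  have hQ0 : Q ≠ ⊥ := ne_bot_of_liesOver_of_ne_bot
    (p := span {(p : ℤ)}) (by simpa using hp.ne_zero) Q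
  have : Finite (𝓞 (KK T) ⧸ Q) := Ideal.finiteQuotientOfFreeOfNeBot Q hQ0
  obtain ⟨σ, hσ⟩ := IsArithFrobAt.exists_of_isInvariant ℤ Gal(KK T/ℚ) Q
  have hσ' : ∀ x : 𝓞 (KK T), Ideal.Quotient.mk Q (σ • x) = Ideal.Quotient.mk Q x ^ p := fun x => by
    have := hσ x
    rw [← hQ2.over, Int.card_ideal_quot] at this
    rw [← map_pow]
    exact Ideal.Quotient.eq.mpr this
  have hpQ : (p : 𝓞 (KK T) ⧸ Q) = 0 := by
    rw [← map_natCast (Ideal.Quotient.mk Q), Ideal.Quotient.eq_zero_iff_mem]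
    simpa using (liesOver_span_iff hQ1.ne_top (Nat.prime_iff_prime_int.mp hp)).mp hQ2
  have : CharP (𝓞 (KK T) ⧸ Q) p := (CharP.charP_iff_prime_eq_zero hp).mpr hpQ
  let c := ZMod.castHom (dvd_refl p) (𝓞 (KK T) ⧸ Q)
  have inj : Function.Injective (algebraMap (KK T) Om) := (algebraMap (KK T) Om).injective
  have inj' : Function.Injective ((algebraMap (KK T) Om).comp (algebraMap (𝓞 (KK T)) (KK T))) :=
    inj.comp RingOfIntegers.coe_injective
  have hs : σ = 1 := by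
    refine AlgEquiv.coe_toAlgHom_injective (adjoin_algHom_ext ℚ fun z ⟨g, hg, hz⟩ => ?_)
    let t : 𝓞 (KK T) := ⟨⟨z, mem_KK hg hz⟩,
      (isIntegral_algebraMap_iff inj).mp (rts_int (hT g hg) hz)⟩
    have e1 : t ^ g.1 = g.2 := inj' (by rw [map_pow, map_intCast]; exact hz)
    have e2 : (σ • t) ^ g.1 = g.2 := by
      rw [← smul_pow', e1]
      exact map_intCast (MulSemiringAction.toRingHom _ _ σ) _
    have e3 : Ideal.Quotient.mk Q t ^ (p - 1) = 1 := by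
      rw [← Nat.mul_div_cancel' (h g hg).1, pow_mul, ← map_pow _ t, e1, map_intCast,
        ← map_intCast c, ← map_pow, (h g hg).2, map_one]
    have e4 : Ideal.Quotient.mk Q (σ • t) = Ideal.Quotient.mk Q t := by
      rw [hσ', ← Nat.sub_add_cancel hp.one_le, pow_succ, e3, one_mul]
    suffices e : σ • t = t from congrArg (fun x : 𝓞 (KK T) => (x : KK T)) e
    by_contra hne
    have e5 := geom_sum₂_mul (σ • t) t g.1
    rw [e1, e2, sub_self, mul_eq_zero] at e5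
    have e6 := congrArg (Ideal.Quotient.mk Q) (e5.resolve_right (sub_ne_zero.mpr hne))
    simp only [map_sum, map_mul, map_pow, e4, map_zero, geom_sum₂_self, mul_eq_zero] at e6
    rcases e6 with e6 | e6
    · exact h1 g hg ((CharP.cast_eq_zero_iff _ p _).mp e6)
    · rw [eq_zero_of_pow_eq_zero e6, zero_pow (Nat.sub_pos_of_lt hp.one_lt).ne'] at e3
      exact zero_ne_one e3
  have hall : ∀ x : 𝓞 (KK T) ⧸ Q, x ^ p = x := fun x => by
    obtain ⟨y, rfl⟩ := Ideal.Quotient.mk_surjective x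
    rw [← hσ', hs, one_smul]
  have hc : Function.Bijective c := by
    have := Fintype.ofFinite (𝓞 (KK T) ⧸ Q)
    refine (Fintype.bijective_iff_injective_and_card c).mpr ⟨c.injective, le_antisymm
      (Fintype.card_le_of_injective c c.injective) ?_⟩
    have := hQ1.isMaximal hQ0
    let := Ideal.Quotient.field Q
    have h0 := FiniteField.X_pow_card_sub_X_ne_zero (𝓞 (KK T) ⧸ Q) hp.one_lt
    rw [ZMod.card, ← Finset.card_univ]
    refine (card_le_degree_of_subset_roots (p := X ^ p - X) fun x _ => ?_).trans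
      (FiniteField.X_pow_card_sub_X_natDegree_eq _ hp.one_lt).le
    rw [mem_roots h0]
    simp [hall]
  exact ⟨(RingEquiv.ofBijective c hc).symm.toRingHom.comp (Ideal.Quotient.mk Q)⟩

end Pool.Agent.P.MP_2ac10d_nt
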