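import Pool.Agent.P.MP_2ac10d_nt.DC

/-! Degrees of towers of radicals, certified by witness primes. -/

namespace Pool.Agent.P.MP_2ac10d_nt

open NumberField Ideal IntermediateField Polynomial Module
open scoped Classical

/-- adjoining the roots of `g` to `K` is trivial or has degree `l` -/
def Step (K : IntermediateField ℚ Om) (g : ℕ × ℤ) (l : ℕ) : Prop :=
  ∃ z : Om, z ∈ K ⊔ adjoin ℚ (rts g) ∧ rts g ⊆ K⟮z⟯ ∧ IsIntegral K z ∧
    (z ∉ K → (minpoly K z).natDegree = l)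

theorem deg_step {T : Finset (ℕ × ℤ)} {g : ℕ × ℤ} {l q : ℕ} (hs : Step (KK T) g l)
    (hq : q.Prime) (h1 : ∀ g ∈ T, ¬ q ∣ g.1) (h2 : ∀ g ∈ T, Ev g q) (h3 : ¬ q ∣ g.1)
    (h4 : ¬ (q : ℤ) ∣ g.2) (h5 : ¬ Ev g q) :
    finrank ℚ (KK (insert g T)) = finrank ℚ (KK T) * l := by
  obtain ⟨z, hz1, hz2, hz3, hz4⟩ := hs
  have hz : z ∉ KK T := fun hz => h5 (ev_of_spl (K := KK T) (fun w hw => by
    have h6 : (KK T)⟮z⟯ ≤ ⊥ := adjoin_simple_le_iff.mpr (mem_bot.mpr ⟨⟨z, hz⟩, rfl⟩)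
    obtain ⟨y, rfl⟩ := mem_bot.mp (h6 (hz2 hw))
    exact y.2) hq h3 h4 (spl_of_ev hq h1 h2))
  have e1 : KK (insert g T) = KK T ⊔ adjoin ℚ (rts g) := by
    rw [KK, KK, ← adjoin_union]
    congr 1
    ext w
    simp [or_comm]
  have e2 : KK (insert g T) = IntermediateField.restrictScalars ℚ (KK T)⟮z⟯ := by
    rw [e1]
    refine le_antisymm (sup_le (fun w hw => ?_) (adjoin_le_iff.mpr hz2)) ?_
    · exact (KK T)⟮z⟯.algebraMap_mem ⟨w, hw⟩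
    · exact (restrictScalars_adjoin_eq_sup ℚ (KK T) {z}).le.trans
        (sup_le le_sup_left (adjoin_simple_le_iff.mpr hz1))
  rw [e2, ← hz4 hz, ← adjoin.finrank hz3]
  exact (Module.finrank_mul_finrank ℚ (KK T) (KK T)⟮z⟯).symm

theorem step_rad {K : IntermediateField ℚ Om} {g : ℕ × ℤ} {l : ℕ} (hl : l.Prime) {z ζ : Om}
    (h1 : z ∈ K ⊔ adjoin ℚ (rts g)) (h2 : rts g ⊆ K⟮z⟯) (h3 : z ^ l ∈ K) (h4 : ζ ∈ K)
    (h5 : IsPrimitiveRoot ζ l) : Step K g l := by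
  have : NeZero l := ⟨hl.ne_zero⟩
  have hm : (X ^ l - C (⟨z ^ l, h3⟩ : K)).Monic := monic_X_pow_sub_C _ hl.ne_zero
  have ha : aeval z (X ^ l - C (⟨z ^ l, h3⟩ : K)) = 0 := by simp
  refine ⟨z, h1, h2, ⟨_, hm, ha⟩, fun hz => ?_⟩
  rw [← minpoly.eq_of_irreducible_of_monic
    (X_pow_sub_C_irreducible_of_prime hl fun b hb => hz ?_) ha hm, natDegree_X_pow_sub_C]
  have hb : (b : Om) ^ l = z ^ l := congrArg Subtype.val hb
  by_cases h0 : (b : Om) = 0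
  · rw [h0, zero_pow hl.ne_zero] at hb
    rw [eq_zero_of_pow_eq_zero hb.symm]
    exact zero_mem _
  · obtain ⟨i, -, hi⟩ := h5.eq_pow_of_pow_eq_one (ξ := z / b)
      (by rw [div_pow, ← hb, div_self (pow_ne_zero _ h0)])
    rw [← div_mul_cancel₀ z h0, ← hi]
    exact mul_mem (pow_mem h4 _) b.2

theorem step_gen {K : IntermediateField ℚ Om} {m l : ℕ} {a : ℤ} (hl : l.Prime) (hm : 0 < m)
    (hlm : l ∣ m) (ha : a ≠ 0) {ζ : Om} (h1 : ζ ∈ K) (h2 : IsPrimitiveRoot ζ m)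
    (h3 : ∀ z : Om, z ^ m = a → z ^ l ∈ K) : Step K (m, a) l := by
  have : NeZero m := ⟨hm.ne'⟩
  obtain ⟨z, hz⟩ := IsAlgClosed.exists_pow_nat_eq (a : Om) hm
  have ha' : (a : Om) ≠ 0 := Int.cast_ne_zero.mpr ha
  have hz0 : z ≠ 0 := fun e => ha' (by rw [← hz, e, zero_pow hm.ne'])
  refine step_rad hl (le_sup_right (α := IntermediateField ℚ Om) (subset_adjoin _ _ hz))
    (fun w (hw : w ^ m = a) => ?_) (h3 z hz) (pow_mem h1 (m / l))
    (h2.pow hm (Nat.div_mul_cancel hlm).symm)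
  obtain ⟨i, -, hi⟩ := h2.eq_pow_of_pow_eq_one (ξ := w / z)
    (by rw [div_pow, hw, hz, div_self ha'])
  rw [← div_mul_cancel₀ w hz0, ← hi]
  exact mul_mem (pow_mem (K⟮z⟯.algebraMap_mem ⟨ζ, h1⟩) _) (mem_adjoin_simple_self _ _)

variable {K : IntermediateField ℚ Om}

theorem step_two {a : ℤ} (ha : a ≠ 0) : Step K (2, a) 2 :=
  step_gen Nat.prime_two two_pos dvd_rfl ha (neg_mem (one_mem _))
    (IsPrimitiveRoot.neg_one 0 (by norm_num)) fun z hz => hz ▸ intCast_mem _ _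

theorem ex_rt (g : ℕ × ℤ) (hg : 0 < g.1) : ∃ z, z ∈ rts g := IsAlgClosed.exists_pow_nat_eq _ hg

theorem prim_two_pow {ζ : Om} {k : ℕ} (h : ζ ^ 2 ^ k = -1) : IsPrimitiveRoot ζ (2 ^ (k + 1)) := by
  rw [IsPrimitiveRoot.iff_orderOf]
  refine orderOf_eq_prime_pow (by rw [h]; norm_num) (by rw [pow_succ, pow_mul, h]; norm_num)

theorem ex_i (h : rts (2, -1) ⊆ K) : ∃ i ∈ K, i ^ 2 = -1 := by
  obtain ⟨i, hi⟩ := ex_rt (2, -1) two_pos
  exact ⟨i, h hi, by simpa [rts] using hi⟩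

theorem sqrt_two (h0 : rts (2, 6) ⊆ K) (h1 : rts (2, -3) ⊆ K) (h2 : rts (2, -1) ⊆ K) :
    rts (2, 2) ⊆ K := fun y hy => by
  obtain ⟨i, hi, hi2⟩ := ex_i h2
  obtain ⟨u, hu⟩ := ex_rt (2, 6) two_pos
  obtain ⟨v, hv⟩ := ex_rt (2, -3) two_pos
  have hu2 : u ^ 2 = 6 := by simpa [rts] using hu
  have hv2 : v ^ 2 = -3 := by simpa [rts] using hv
  have hy2 : y ^ 2 = 2 := by simpa [rts] using hy
  have h3 : y * v * i ∈ K := h0 (show (y * v * i) ^ 2 = ((6 : ℤ) : Om) by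
    rw [mul_pow, mul_pow, hy2, hv2, hi2]; norm_num)
  have hv0 : v ≠ 0 := fun e => by rw [e] at hv2; norm_num at hv2
  have hi0 : i ≠ 0 := fun e => by rw [e] at hi2; norm_num at hi2
  simpa [hv0, hi0] using div_mem (div_mem h3 hi) (h1 hv)

theorem step_four {a : ℤ} (ha : a ≠ 0) (h0 : rts (2, a) ⊆ K) (h2 : rts (2, -1) ⊆ K) :
    Step K (4, a) 2 := by
  obtain ⟨i, hi, hi2⟩ := ex_i h2
  exact step_gen Nat.prime_two four_pos (by norm_num) ha hi (prim_two_pow (k := 1) hi2)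
    fun z hz => h0 (show (z ^ 2) ^ 2 = a by rw [← pow_mul, hz])

theorem step_eight {a : ℤ} (ha : a ≠ 0) (h0 : rts (4, a) ⊆ K) (h1 : rts (2, 2) ⊆ K)
    (h2 : rts (2, -1) ⊆ K) : Step K (8, a) 2 := by
  obtain ⟨i, hi, hi2⟩ := ex_i h2
  obtain ⟨y, hy⟩ := ex_rt (2, 2) two_pos
  have hy2 : y ^ 2 = 2 := by simpa [rts] using hy
  refine step_gen Nat.prime_two (by norm_num) (by norm_num) ha
    (div_mem (add_mem (one_mem _) hi) (h1 hy)) (prim_two_pow (k := 2) ?_)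
    fun z hz => h0 (show (z ^ 2) ^ 4 = a by rw [← pow_mul, hz])
  rw [div_pow, show 2 ^ 2 = 2 * 2 from rfl, pow_mul y, hy2, div_eq_iff (by norm_num)]
  linear_combination (i ^ 2 + 4 * i + 5) * hi2

theorem step_three {a : ℤ} (ha : a ≠ 0) (h1 : rts (2, -3) ⊆ K) : Step K (3, a) 3 := by
  obtain ⟨v, hv⟩ := ex_rt (2, -3) two_pos
  have hv2 : v ^ 2 = -3 := by simpa [rts] using hv
  refine step_gen Nat.prime_three three_pos dvd_rfl ha
    (div_mem (sub_mem (h1 hv) (one_mem _)) (ofNat_mem K 2)) ?_ fun z hz => hz ▸ intCast_mem _ _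
  rw [IsPrimitiveRoot.iff_orderOf]
  have : Fact (Nat.Prime 3) := ⟨Nat.prime_three⟩
  refine orderOf_eq_prime (by linear_combination (v - 3) / 8 * hv2) fun e => ?_
  have : v = 3 := by linear_combination 2 * e
  rw [this] at hv2
  norm_num at hv2

theorem step_five {a : ℤ} (ha : a ≠ 0) (h1 : rts (5, 1) ⊆ K) : Step K (5, a) 5 := by
  obtain ⟨ζ, hζ⟩ := HasEnoughRootsOfUnity.exists_primitiveRoot Om 5
  exact step_gen Nat.prime_five (by norm_num) dvd_rfl ha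
    (h1 (by simpa [rts] using hζ.pow_eq_one)) hζ fun z hz => hz ▸ intCast_mem _ _

theorem step_zeta (h1 : rts (2, 5) ⊆ K) : Step K (5, 1) 2 := by
  obtain ⟨ζ, hζ⟩ := HasEnoughRootsOfUnity.exists_primitiveRoot Om 5
  have h5 := hζ.pow_eq_one
  have hs : ζ ^ 4 + ζ ^ 3 + ζ ^ 2 + ζ + 1 = 0 := by
    have := hζ.geom_sum_eq_zero (by norm_num)
    simp only [Finset.sum_range_succ, Finset.sum_range_zero] at this
    linear_combination this
  have h2 : 2 * (ζ + ζ ^ 4) + 1 ∈ K := h1 (show (2 * (ζ + ζ ^ 4) + 1) ^ 2 = ((5 : ℤ) : Om) by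
    push_cast
    linear_combination (4 * ζ ^ 3 + 8) * h5 + 4 * hs)
  have h3 : ζ + ζ ^ 4 ∈ K := by
    have := div_mem (sub_mem h2 (one_mem _)) (ofNat_mem K 2)
    simpa using this
  have h4 : ζ ∈ K ⊔ adjoin ℚ (rts (5, 1)) :=
    le_sup_right (α := IntermediateField ℚ Om) (subset_adjoin _ _ (by simpa [rts] using h5))
  refine step_rad (z := ζ - ζ ^ 4) Nat.prime_two (sub_mem h4 (pow_mem h4 _)) (fun w hw => ?_) ?_
    (neg_mem (one_mem _)) (IsPrimitiveRoot.neg_one 0 (by norm_num))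
  · obtain ⟨i, -, hi⟩ := hζ.eq_pow_of_pow_eq_one (ξ := w) (by simpa [rts] using hw)
    rw [← hi]
    refine pow_mem ?_ _
    have := div_mem (add_mem (K⟮ζ - ζ ^ 4⟯.algebraMap_mem ⟨_, h3⟩) (mem_adjoin_simple_self _ _))
      (ofNat_mem K⟮ζ - ζ ^ 4⟯ 2)
    rwa [show ((algebraMap K Om) ⟨_, h3⟩ + (ζ - ζ ^ 4)) / (2 : Om) = ζ by
      show (ζ + ζ ^ 4 + (ζ - ζ ^ 4)) / 2 = ζ
      ring] at this
  · rw [show (ζ - ζ ^ 4) ^ 2 = (ζ + ζ ^ 4) ^ 2 - 4 by linear_combination (-4) * h5]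
    exact sub_mem (pow_mem h3 _) (ofNat_mem K 4)

end Pool.Agent.P.MP_2ac10d_nt
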