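import Pool.Agent.P.MP_2ac10d_nt.DD

/-! The explicit tower and the density of the primes that survive the obstructions. -/

namespace Pool.Agent.P.MP_2ac10d_nt

open NumberField IntermediateField Module
open scoped Classical

/-- the radicals -/
def gen (i : ℕ) : ℕ × ℤ :=
  [(2, 6), (2, -3), (2, -1), (4, 6), (4, 2), (8, 6), (3, 2), (3, 3), (2, 5), (5, 1), (5, 2),
    (5, 3)].getD i (1, 1)

/-- their relative degrees -/
def dg (i : ℕ) : ℕ := [2, 2, 2, 2, 2, 2, 3, 3, 2, 2, 5, 5].getD i 1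

/-- what has to be adjoined first -/
def pre (i : ℕ) : List ℕ :=
  [[], [], [], [0, 2], [0, 1, 2], [0, 1, 2, 3], [1], [1], [], [8], [9], [9]].getD i []

/-- the witness primes -/
def wit (i : ℕ) : ℕ := [11, 23, 19, 73, 97, 937, 577, 601, 11113, 65929, 22441, 102241].getD i 2

theorem step_fact {i : ℕ} (hi : i < 12) {K : IntermediateField ℚ Om}
    (h : ∀ j ∈ pre i, rts (gen j) ⊆ K) : Step K (gen i) (dg i) := by
  interval_cases i
  · exact step_two (by norm_num)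
  · exact step_two (by norm_num)
  · exact step_two (by norm_num)
  · exact step_four (by norm_num) (h 0 (by decide)) (h 2 (by decide))
  · exact step_four (by norm_num)
      (sqrt_two (h 0 (by decide)) (h 1 (by decide)) (h 2 (by decide))) (h 2 (by decide))
  · exact step_eight (by norm_num) (h 3 (by decide))
      (sqrt_two (h 0 (by decide)) (h 1 (by decide)) (h 2 (by decide))) (h 2 (by decide))
  · exact step_three (by norm_num) (h 1 (by decide))
  · exact step_three (by norm_num) (h 1 (by decide))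
  · exact step_two (by norm_num)
  · exact step_zeta (h 8 (by decide))
  · exact step_five (by norm_num) (h 9 (by decide))
  · exact step_five (by norm_num) (h 9 (by decide))

theorem ev_iff (g : ℕ × ℤ) (p : ℕ) :
    Ev g p ↔ g.1 ∣ p - 1 ∧ (p : ℤ) ∣ g.2 ^ ((p - 1) / g.1) - 1 := by
  rw [Ev, ← ZMod.intCast_zmod_eq_zero_iff_dvd]
  push_cast
  rw [sub_eq_zero]

theorem wit_ev : ∀ i < 12, (∀ j < i, Ev (gen j) (wit i)) ∧ ¬ Ev (gen i) (wit i) := by
  simp only [ev_iff]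
  decide +kernel

theorem wit_prime {i : ℕ} (hi : i < 12) : (wit i).Prime ∧ 11 ≤ wit i := by
  interval_cases i <;> simp only [wit, List.getD_cons_succ, List.getD_cons_zero] <;> norm_num

theorem gen_bd : ∀ i < 12, 0 < (gen i).1 ∧ (gen i).1 < 11 ∧ 0 < (gen i).2.natAbs ∧
    (gen i).2.natAbs < 11 ∧ ∀ j ∈ pre i, j < i := by decide

theorem gen_nd {i p : ℕ} (hi : i < 12) (hp : 11 ≤ p) :
    ¬ p ∣ (gen i).1 ∧ ¬ (p : ℤ) ∣ (gen i).2 := by
  obtain ⟨h1, h2, h3, h4, -⟩ := gen_bd i hi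
  exact ⟨Nat.not_dvd_of_pos_of_lt h1 (by omega),
    fun h => Nat.not_dvd_of_pos_of_lt h3 (by omega) (Int.natCast_dvd.mp h)⟩

theorem deg_eq (S : Finset ℕ) : (∀ i ∈ S, i < 12 ∧ ∀ j ∈ pre i, j ∈ S) →
    finrank ℚ (KK (S.image gen)) = ∏ i ∈ S, dg i := by
  induction S using Finset.induction_on_max with
  | empty =>
    intro _
    have : KK (Finset.image gen ∅) = ⊥ := by simp [KK]
    rw [this]
    exact IntermediateField.finrank_bot
  | insert a S ha ih =>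
    intro h
    have h1 : ∀ i ∈ insert a S, i ≤ a → ∀ j ∈ pre i, j ∈ S := fun i hi hia j hj =>
      (Finset.mem_insert.mp ((h i hi).2 j hj)).resolve_left
        (((gen_bd i (h i hi).1).2.2.2.2 j hj).trans_le hia).ne
    have h2 := (h a (Finset.mem_insert_self _ _)).1
    have h3 := wit_prime h2
    rw [Finset.image_insert, Finset.prod_insert fun e => lt_irrefl _ (ha a e), mul_comm,
      ← ih fun i hi => ⟨(h i (Finset.mem_insert_of_mem hi)).1,
        h1 i (Finset.mem_insert_of_mem hi) (ha i hi).le⟩]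
    refine deg_step (step_fact h2 fun j hj z hz => mem_KK (Finset.mem_image_of_mem _
      (h1 a (Finset.mem_insert_self _ _) le_rfl j hj)) hz) h3.1 ?_ ?_ (gen_nd h2 h3.2).1
      (gen_nd h2 h3.2).2 (wit_ev a h2).2
    · simp only [Finset.forall_mem_image]
      exact fun j hj => (gen_nd ((ha j hj).trans h2) h3.2).1
    · simp only [Finset.forall_mem_image]
      exact fun j hj => (wit_ev a h2).1 j (ha j hj)

/-- indicator of the `i`-th event -/
noncomputable def ee (p i : ℕ) : ℝ := if Ev (gen i) p then 1 else 0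

theorem hasD_list (L : List ℕ) (h0 : L.Nodup) (h : ∀ i ∈ L, i < 12 ∧ ∀ j ∈ pre i, j ∈ L) :
    HasD (fun p => (L.map (ee p)).prod) (1 / ((L.map dg).prod : ℕ)) := by
  have h' : ∀ i ∈ L.toFinset, i < 12 ∧ ∀ j ∈ pre i, j ∈ L.toFinset := by simpa using h
  have := nf_KK (T := L.toFinset.image gen) (by
    simp only [Finset.forall_mem_image]
    exact fun j hj => (gen_bd j (h' j hj).1).1)
  have := gal_KK (L.toFinset.image gen)
  have h1 := hasD_spl (KK (L.toFinset.image gen))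
  rw [deg_eq _ h', List.prod_toFinset _ h0] at h1
  have h2 : ∀ p, (L.map (ee p)).prod = if ∀ i ∈ L.toFinset, Ev (gen i) p then 1 else 0 :=
    fun p => by
      rw [← List.prod_toFinset _ h0, ← Finset.prod_boole]
      rfl
  refine h1.congr (B := 1) (fun p => by rw [h2]; split_ifs <;> simp) 11 fun p hp h11 => ?_
  rw [h2]
  refine if_congr ⟨fun hs i hi => ev_of_spl (fun z hz => mem_KK (Finset.mem_image_of_mem _ hi) hz)
    hp (gen_nd (h' i hi).1 h11).1 (gen_nd (h' i hi).1 h11).2 hs, fun hs => spl_of_ev hp ?_ ?_⟩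
    rfl rfl
  · simp only [Finset.forall_mem_image]
    exact fun j hj => (gen_nd (h' j hj).1 h11).1
  · simp only [Finset.forall_mem_image]
    exact hs

theorem hasD_terms (X : List (ℤ × List ℕ))
    (h : ∀ t ∈ X, t.2.Nodup ∧ ∀ i ∈ t.2, i < 12 ∧ ∀ j ∈ pre i, j ∈ t.2) :
    HasD (fun p => (X.map fun t => (t.1 : ℝ) * (t.2.map (ee p)).prod).sum)
      (X.map fun t => (t.1 : ℝ) * (1 / ((t.2.map dg).prod : ℕ))).sum := by
  induction X with
  | nil => exact hasD_zero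
  | cons t X ih =>
    simp only [List.map_cons, List.sum_cons]
    exact ((hasD_list t.2 (h t List.mem_cons_self).1 (h t List.mem_cons_self).2).smul _).add
      (ih fun u hu => h u (List.mem_cons_of_mem _ hu))

/-- the expansion of the survivor weight -/
def terms : List (ℤ × List ℕ) :=
  [(1, [0]),
   (-1, [0, 8, 9, 10]),
   (1, [0, 8, 9, 10, 11]),
   (-1, [0, 1, 6]),
   (1, [0, 1, 6, 8, 9, 10]),
   (-1, [0, 1, 6, 8, 9, 10, 11]),
   (-1, [0, 1, 7]),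
   (1, [0, 1, 7, 8, 9, 10]),
   (-1, [0, 1, 7, 8, 9, 10, 11]),
   (2, [0, 1, 6, 7]),
   (-2, [0, 1, 6, 7, 8, 9, 10]),
   (2, [0, 1, 6, 7, 8, 9, 10, 11]),
   (-1, [0, 1, 2]),
   (1, [0, 1, 2, 8, 9, 10]),
   (-1, [0, 1, 2, 8, 9, 10, 11]),
   (1, [0, 1, 2, 6]),
   (-1, [0, 1, 2, 6, 8, 9, 10]),
   (1, [0, 1, 2, 6, 8, 9, 10, 11]),
   (1, [0, 1, 2, 7]),
   (-1, [0, 1, 2, 7, 8, 9, 10]),
   (1, [0, 1, 2, 7, 8, 9, 10, 11]),
   (-2, [0, 1, 2, 6, 7]),
   (2, [0, 1, 2, 6, 7, 8, 9, 10]),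
   (-2, [0, 1, 2, 6, 7, 8, 9, 10, 11]),
   (1, [0, 1, 2, 3]),
   (-1, [0, 1, 2, 3, 8, 9, 10]),
   (1, [0, 1, 2, 3, 8, 9, 10, 11]),
   (-1, [0, 1, 2, 3, 6]),
   (1, [0, 1, 2, 3, 6, 8, 9, 10]),
   (-1, [0, 1, 2, 3, 6, 8, 9, 10, 11]),
   (-1, [0, 1, 2, 3, 7]),
   (1, [0, 1, 2, 3, 7, 8, 9, 10]),
   (-1, [0, 1, 2, 3, 7, 8, 9, 10, 11]),
   (2, [0, 1, 2, 3, 6, 7]),
   (-2, [0, 1, 2, 3, 6, 7, 8, 9, 10]),
   (2, [0, 1, 2, 3, 6, 7, 8, 9, 10, 11]),
   (-1, [0, 1, 2, 3, 4]),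
   (1, [0, 1, 2, 3, 4, 8, 9, 10]),
   (-1, [0, 1, 2, 3, 4, 8, 9, 10, 11]),
   (1, [0, 1, 2, 3, 4, 6]),
   (-1, [0, 1, 2, 3, 4, 6, 8, 9, 10]),
   (1, [0, 1, 2, 3, 4, 6, 8, 9, 10, 11]),
   (1, [0, 1, 2, 3, 4, 7]),
   (-1, [0, 1, 2, 3, 4, 7, 8, 9, 10]),
   (1, [0, 1, 2, 3, 4, 7, 8, 9, 10, 11]),
   (-2, [0, 1, 2, 3, 4, 6, 7]),
   (2, [0, 1, 2, 3, 4, 6, 7, 8, 9, 10]),
   (-2, [0, 1, 2, 3, 4, 6, 7, 8, 9, 10, 11]),
   (1, [0, 1, 2, 3, 4, 5]),
   (-1, [0, 1, 2, 3, 4, 5, 8, 9, 10]),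
   (1, [0, 1, 2, 3, 4, 5, 8, 9, 10, 11]),
   (-1, [0, 1, 2, 3, 4, 5, 6]),
   (1, [0, 1, 2, 3, 4, 5, 6, 8, 9, 10]),
   (-1, [0, 1, 2, 3, 4, 5, 6, 8, 9, 10, 11]),
   (-1, [0, 1, 2, 3, 4, 5, 7]),
   (1, [0, 1, 2, 3, 4, 5, 7, 8, 9, 10]),
   (-1, [0, 1, 2, 3, 4, 5, 7, 8, 9, 10, 11]),
   (2, [0, 1, 2, 3, 4, 5, 6, 7]),
   (-2, [0, 1, 2, 3, 4, 5, 6, 7, 8, 9, 10]),
   (2, [0, 1, 2, 3, 4, 5, 6, 7, 8, 9, 10, 11])]

/-- the survivor weight -/
noncomputable def surv (p : ℕ) : ℝ :=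
  ee p 0 * (1 - ee p 1 * ee p 2 * (1 - ee p 3 * (1 - ee p 4 * (1 - ee p 5)))) *
    (1 - ee p 1 * (ee p 6 + ee p 7 - 2 * ee p 6 * ee p 7)) *
    (1 - ee p 8 * ee p 9 * ee p 10 * (1 - ee p 11))

theorem ee_cases (p i : ℕ) : ee p i = 0 ∨ ee p i = 1 := by
  unfold ee
  split_ifs <;> simp

theorem hasD_surv : HasD surv (199 / 600) := by
  have h := hasD_terms terms (by decide)
  have e1 : (fun p => (terms.map fun t => (t.1 : ℝ) * (t.2.map (ee p)).prod).sum) = surv := by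
    funext p
    simp only [terms, surv, List.map_cons, List.sum_cons, List.prod_cons, List.map_nil,
      List.sum_nil, List.prod_nil]
    push_cast
    rcases ee_cases p 1 with e | e <;> rw [e] <;> ring
  have e2 : (terms.map fun t => (t.1 : ℝ) * (1 / ((t.2.map dg).prod : ℕ))).sum = 199 / 600 := by
    simp only [terms, dg, List.map_cons, List.sum_cons, List.prod_cons, List.map_nil,
      List.sum_nil, List.prod_nil, List.getD_cons_succ, List.getD_cons_zero]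
    norm_num
  rwa [e1, e2] at h

theorem hasD_one : HasD (fun _ => 1) 1 := by
  simpa using hasD_list [] List.nodup_nil (by simp)

theorem surv_nonneg (p : ℕ) : 0 ≤ surv p := by
  refine mul_nonneg (mul_nonneg ?_ ?_) ?_
  · rcases ee_cases p 0 with e0 | e0 <;> rcases ee_cases p 1 with e1 | e1 <;>
      rcases ee_cases p 2 with e2 | e2 <;> rcases ee_cases p 3 with e3 | e3 <;>
      rcases ee_cases p 4 with e4 | e4 <;> rcases ee_cases p 5 with e5 | e5 <;>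
      rw [e0, e1, e2, e3, e4, e5] <;> norm_num
  · rcases ee_cases p 1 with e0 | e0 <;> rcases ee_cases p 6 with e1 | e1 <;>
      rcases ee_cases p 7 with e2 | e2 <;> rw [e0, e1, e2] <;> norm_num
  · rcases ee_cases p 8 with e0 | e0 <;> rcases ee_cases p 9 with e1 | e1 <;>
      rcases ee_cases p 10 with e2 | e2 <;> rcases ee_cases p 11 with e3 | e3 <;>
      rw [e0, e1, e2, e3] <;> norm_num

end Pool.Agent.P.MP_2ac10d_nt
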