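import Pool.Agent.P.MP_2ac10d_nt.DE

/-! A prime dividing a solution of `2^n ≡ 3 (mod n)` survives all the obstructions. -/

namespace Pool.Agent.P.MP_2ac10d_nt

open Filter Topology
open scoped Classical

theorem sol_odd {n : ℕ} (h1 : 1 < n) (h : 2 ^ n ≡ 3 [MOD n]) : ¬ 2 ∣ n := fun h2 => by
  have h3 := (h.of_dvd h2).dvd_iff dvd_rfl
  exact absurd (h3.mp (dvd_pow_self 2 (by omega))) (by norm_num)

theorem sol_three {n : ℕ} (h : 2 ^ n ≡ 3 [MOD n]) : ¬ 3 ∣ n := fun h2 => by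
  have h3 := (h.of_dvd h2).dvd_iff dvd_rfl
  exact absurd (Nat.prime_three.dvd_of_dvd_pow (h3.mpr dvd_rfl)) (by norm_num)

section

variable {p n : ℕ} [Fact p.Prime] (hp : 11 ≤ p) (h : (2 : ZMod p) ^ n = 3)

include hp in
theorem two_ne : (2 : ZMod p) ≠ 0 := fun e =>
  Nat.not_dvd_of_pos_of_lt two_pos (by omega : 2 < p)
    ((ZMod.natCast_eq_zero_iff 2 p).mp (by exact_mod_cast e))

include h in
theorem six_pow (hn : ¬ 2 ∣ n) {k : ℕ} (h2 : (2 : ZMod p) ^ (2 * k) = 1) :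
    (6 : ZMod p) ^ k = 1 := by
  obtain ⟨m, hm⟩ : 2 ∣ n + 1 := by omega
  have : (6 : ZMod p) = 2 ^ (n + 1) := by rw [pow_succ, h]; norm_num
  rw [this, hm, ← pow_mul, mul_right_comm, pow_mul, h2, one_pow]

include hp h in
theorem ev0 (hn : ¬ 2 ∣ n) : Ev (gen 0) p := by
  have h2 : 2 ∣ p - 1 := by
    have := (Fact.out : p.Prime).eq_two_or_odd
    omega
  refine ⟨h2, ?_⟩
  show ((6 : ℤ) : ZMod p) ^ ((p - 1) / 2) = 1
  push_cast
  refine six_pow h hn ?_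
  rw [Nat.mul_div_cancel' h2]
  exact ZMod.pow_card_sub_one_eq_one (two_ne hp)

include hp in
theorem two_qr (h0 : Ev (gen 0) p) (h1 : Ev (gen 1) p) (h2 : Ev (gen 2) p) :
    8 ∣ p - 1 ∧ (2 : ZMod p) ^ ((p - 1) / 2) = 1 := by
  have e0 : ((6 : ℤ) : ZMod p) ^ ((p - 1) / 2) = 1 := h0.2
  have e1 : ((-3 : ℤ) : ZMod p) ^ ((p - 1) / 2) = 1 := h1.2
  have e2 : ((-1 : ℤ) : ZMod p) ^ ((p - 1) / 2) = 1 := h2.2
  have e3 : 2 ∣ p - 1 := h0.1
  push_cast at e0 e1 e2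
  have e4 : (2 : ZMod p) ^ ((p - 1) / 2) = 1 := by
    rw [show (6 : ZMod p) = 2 * -3 * -1 by norm_num, mul_pow, mul_pow, e1, e2] at e0
    simpa using e0
  have e5 : Even ((p - 1) / 2) := by
    by_contra hne
    rw [(Nat.not_even_iff_odd.mp hne).neg_one_pow] at e2
    exact two_ne hp (by linear_combination -e2)
  have e6 : IsSquare (2 : ZMod p) := (ZMod.euler_criterion p (two_ne hp)).mpr (by
    rwa [show p / 2 = (p - 1) / 2 by omega])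
  rw [ZMod.exists_sq_eq_two_iff (by omega)] at e6
  obtain ⟨k, hk⟩ := e5
  exact ⟨by omega, e4⟩

include hp h in
theorem ev3 (hn : ¬ 2 ∣ n) (h0 : Ev (gen 0) p) (h1 : Ev (gen 1) p) (h2 : Ev (gen 2) p) :
    Ev (gen 3) p := by
  obtain ⟨e1, e2⟩ := two_qr hp h0 h1 h2
  refine ⟨show 4 ∣ p - 1 by omega, ?_⟩
  show ((6 : ℤ) : ZMod p) ^ ((p - 1) / 4) = 1
  push_cast
  exact six_pow h hn (by rwa [show 2 * ((p - 1) / 4) = (p - 1) / 2 by omega])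

include hp h in
theorem ev5 (hn : ¬ 2 ∣ n) (h0 : Ev (gen 0) p) (h1 : Ev (gen 1) p) (h2 : Ev (gen 2) p)
    (h4 : Ev (gen 4) p) : Ev (gen 5) p := by
  obtain ⟨e1, -⟩ := two_qr hp h0 h1 h2
  have e2 : ((2 : ℤ) : ZMod p) ^ ((p - 1) / 4) = 1 := h4.2
  refine ⟨e1, ?_⟩
  show ((6 : ℤ) : ZMod p) ^ ((p - 1) / 8) = 1
  push_cast at e2 ⊢
  exact six_pow h hn (by rwa [show 2 * ((p - 1) / 8) = (p - 1) / 4 by omega])

include h in
theorem ev_up {m : ℕ} (h2 : Ev (m, 2) p) : Ev (m, 3) p := by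
  have e2 : ((2 : ℤ) : ZMod p) ^ ((p - 1) / m) = 1 := h2.2
  refine ⟨h2.1, ?_⟩
  show ((3 : ℤ) : ZMod p) ^ ((p - 1) / m) = 1
  push_cast at e2 ⊢
  rw [← h, ← pow_mul, mul_comm, pow_mul, e2, one_pow]

include hp h in
theorem ev_down {m : ℕ} (hn : m.Coprime n) (h3 : Ev (m, 3) p) : Ev (m, 2) p := by
  have e3 : ((3 : ℤ) : ZMod p) ^ ((p - 1) / m) = 1 := h3.2
  refine ⟨h3.1, ?_⟩
  show ((2 : ℤ) : ZMod p) ^ ((p - 1) / m) = 1
  push_cast at e3 ⊢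
  rw [← h, ← pow_mul, mul_comm, pow_mul] at e3
  have e4 : ((2 : ZMod p) ^ ((p - 1) / m)) ^ m = 1 := by
    rw [← pow_mul, Nat.div_mul_cancel h3.1]
    exact ZMod.pow_card_sub_one_eq_one (two_ne hp)
  have := pow_gcd_eq_one.mpr ⟨e4, e3⟩
  rwa [hn, pow_one] at this

include hp h in
theorem surv_eq (hn : ¬ 2 ∣ n) (hn3 : ¬ 3 ∣ n) : surv p = 1 := by
  have h0 := ev0 hp h hn
  have h3 := ev3 hp h hn h0
  have h5 := ev5 hp h hn h0
  have h6 : Ev (gen 6) p ↔ Ev (gen 7) p :=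
    ⟨ev_up h, ev_down hp h ((Nat.Prime.coprime_iff_not_dvd Nat.prime_three).mpr hn3)⟩
  have h7 : Ev (gen 10) p → Ev (gen 11) p := ev_up h
  have a1 : ee p 1 * ee p 2 * (1 - ee p 3 * (1 - ee p 4 * (1 - ee p 5))) = 0 := by
    unfold ee
    by_cases e1 : Ev (gen 1) p
    · by_cases e2 : Ev (gen 2) p
      · by_cases e4 : Ev (gen 4) p
        · simp [h3 e1 e2, h5 e1 e2 e4]
        · simp [h3 e1 e2, e4]
      · simp [e2]
    · simp [e1]
  have a2 : ee p 6 + ee p 7 - 2 * ee p 6 * ee p 7 = 0 := by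
    unfold ee
    by_cases e : Ev (gen 7) p
    · simp only [h6, e, if_true]; norm_num
    · simp [h6, e]
  have a3 : ee p 10 * (1 - ee p 11) = 0 := by
    unfold ee
    by_cases e : Ev (gen 10) p
    · simp [h7 e]
    · simp [e]
  rw [surv, a1, a2, mul_assoc (ee p 8 * ee p 9), a3, ee, if_pos h0]
  norm_num

end

theorem density : ∃ C : ℝ, ∀ s : ℝ, 1 < s → 401 / 600 * Real.log (1 / (s - 1)) - C ≤
    ∑' p : {p : ℕ // p.Prime ∧ ∀ n : ℕ, 1 < n → 2 ^ n ≡ 3 [MOD n] → ¬ p ∣ n},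
      ((p : ℕ) : ℝ) ^ (-s) := by
  obtain ⟨⟨B, hB⟩, C, hC⟩ := hasD_one.add (hasD_surv.smul (-1))
  let g : ℕ → ℝ := fun p => if ∀ n : ℕ, 1 < n → 2 ^ n ≡ 3 [MOD n] → ¬ p ∣ n then 1 else 0
  have hg : ∀ p, |g p| ≤ max B 1 := fun p => le_max_of_le_right (by
    simp only [g]
    split_ifs <;> simp)
  have he : ∀ s : ℝ, ∑' p : {p : ℕ // p.Prime ∧ ∀ n : ℕ, 1 < n → 2 ^ n ≡ 3 [MOD n] → ¬ p ∣ n},
      ((p : ℕ) : ℝ) ^ (-s) = F g s := fun s => by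
    refine (tsum_subtype {p : ℕ | p.Prime ∧ ∀ n : ℕ, 1 < n → 2 ^ n ≡ 3 [MOD n] → ¬ p ∣ n}
      fun p => (p : ℝ) ^ (-s)).trans (tsum_congr fun p => ?_)
    simp only [g, Set.indicator_apply, Set.mem_ofPred_eq]
    by_cases h1 : p.Prime <;> by_cases h2 : ∀ n : ℕ, 1 < n → 2 ^ n ≡ 3 [MOD n] → ¬ p ∣ n
    · rw [if_pos ⟨h1, h2⟩, if_pos h1, if_pos h2, one_mul]
    · rw [if_neg fun e => h2 e.2, if_pos h1, if_neg h2, zero_mul]
    · rw [if_neg fun e => h1 e.1, if_neg h1]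
    · rw [if_neg fun e => h1 e.1, if_neg h1]
  have hle : ∀ p, p.Prime → 11 ≤ p → 1 + -1 * surv p ≤ g p := fun p hp h11 => by
    simp only [g]
    split_ifs with h
    · linarith [surv_nonneg p]
    · push Not at h
      obtain ⟨n, h1, h2, h3⟩ := h
      have := Fact.mk hp
      have h4 : (2 : ZMod p) ^ n = 3 := by
        exact_mod_cast (ZMod.natCast_eq_natCast_iff _ _ _).mpr (h2.of_dvd h3)
      rw [surv_eq h11 h4 (sol_odd h1 h2) (sol_three h2)]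
      norm_num
  obtain ⟨u, hu, hu'⟩ := (nhdsGT_basis (1 : ℝ)).eventually_iff.mp hC
  obtain ⟨M, hM⟩ : ∃ M : ℝ, ∀ s : ℝ, 1 < s → F (fun n => 1 + -1 * surv n) s ≤ F g s + M :=
    ⟨_, fun s hs => F_le (fun n => (hB n).trans (le_max_left _ _)) hg 11 hle hs⟩
  refine ⟨max (C + M) (401 / 600 * Real.log (1 / (u - 1))), fun s hs => ?_⟩
  rw [he]
  by_cases hsu : s < u
  · have h1 := (abs_le.mp (hu' ⟨hs, hsu⟩)).1
    linarith [hM s hs, le_max_left (C + M) (401 / 600 * Real.log (1 / (u - 1)))]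
  · have h1 : Real.log (1 / (s - 1)) ≤ Real.log (1 / (u - 1)) :=
      Real.log_le_log (by apply one_div_pos.mpr; linarith)
        (one_div_le_one_div_of_le (by linarith) (by linarith))
    have h2 : 0 ≤ F g s := by
      rw [← he]
      exact tsum_nonneg fun _ => Real.rpow_nonneg (Nat.cast_nonneg _) _
    linarith [le_max_right (C + M) (401 / 600 * Real.log (1 / (u - 1)))]

end Pool.Agent.P.MP_2ac10d_nt
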