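import Pool.Agent.P.MP_2ac10d_nt.DF

/-! Degrees of radical towers through ramification: the block of a prime `l`. -/

namespace Pool.Agent.P.MP_2ac10d_nt

open NumberField Ideal IntermediateField Polynomial Module
open scoped Classical

theorem unram {T : Finset (ℕ × ℤ)} {r : ℕ} (hp : r.Prime)
    (h1 : ∀ g ∈ T, ¬ r ∣ g.1 ∧ ¬ (r : ℤ) ∣ g.2) :
    ∃ Q : Ideal (𝓞 (KK T)), Q.IsPrime ∧ (r : 𝓞 (KK T)) ∈ Q ∧ (r : 𝓞 (KK T)) ∉ Q ^ 2 := by
  have := Fact.mk hp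
  have hT : ∀ g ∈ T, 0 < g.1 := fun g hg =>
    Nat.pos_of_ne_zero fun e => (h1 g hg).1 (e ▸ dvd_zero r)
  have := nf_KK hT
  have := gal_KK T
  obtain ⟨⟨Q, hQ1, hQ2⟩⟩ :=
    (inferInstance : Nonempty (primesOver (span {(r : ℤ)}) (𝓞 (KK T))))
  have hrQ : ∀ a : ℤ, (a : 𝓞 (KK T)) ∈ Q ↔ (r : ℤ) ∣ a := fun a => by
    rw [← mem_span_singleton, hQ2.over, under_def, mem_comap, eq_intCast]
  have inj : Function.Injective (algebraMap (KK T) Om) := (algebraMap (KK T) Om).injective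
  have inj' : Function.Injective ((algebraMap (KK T) Om).comp (algebraMap (𝓞 (KK T)) (KK T))) :=
    inj.comp RingOfIntegers.coe_injective
  have hs : Q.inertia Gal(KK T/ℚ) = ⊥ := by
    refine (Subgroup.eq_bot_iff_forall _).mpr fun σ hσ => ?_
    refine AlgEquiv.coe_toAlgHom_injective (adjoin_algHom_ext ℚ fun z ⟨g, hg, hz⟩ => ?_)
    let t : 𝓞 (KK T) := ⟨⟨z, mem_KK hg hz⟩,
      (isIntegral_algebraMap_iff inj).mp (rts_int (hT g hg) hz)⟩
    have e1 : t ^ g.1 = g.2 := inj' (by rw [map_pow, map_intCast]; exact hz)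
    have e2 : (σ • t) ^ g.1 = g.2 := by
      rw [← smul_pow', e1]
      exact map_intCast (MulSemiringAction.toRingHom _ _ σ) _
    have e4 : Ideal.Quotient.mk Q (σ • t) = Ideal.Quotient.mk Q t := Ideal.Quotient.eq.mpr (hσ t)
    suffices e : σ • t = t from congrArg (fun x : 𝓞 (KK T) => (x : KK T)) e
    by_contra hne
    have e5 := geom_sum₂_mul (σ • t) t g.1
    rw [e1, e2, sub_self, mul_eq_zero] at e5
    have e6 := congrArg (Ideal.Quotient.mk Q) (e5.resolve_right (sub_ne_zero.mpr hne))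
    simp only [map_sum, map_mul, map_pow, e4, map_zero, geom_sum₂_self, mul_eq_zero] at e6
    rcases e6 with e6 | e6
    · rw [← map_natCast (Ideal.Quotient.mk Q), Ideal.Quotient.eq_zero_iff_mem,
        ← Int.cast_natCast, hrQ, Int.natCast_dvd_natCast] at e6
      exact (h1 g hg).1 e6
    · have e7 := Ideal.Quotient.eq_zero_iff_mem.mp (eq_zero_of_pow_eq_zero e6)
      exact (h1 g hg).2 ((hrQ _).mp (e1 ▸ Q.pow_mem_of_mem e7 _ (hT g hg)))
  have h2 := card_inertia_eq_ramificationIdxIn (G := Gal(KK T/ℚ)) (span {(r : ℤ)}) Q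
  rw [hs, Subgroup.card_bot, ramificationIdxIn_eq_ramificationIdx _ Q Gal(KK T/ℚ),
    ← ramificationIdx'_eq_ramificationIdx (span {(r : ℤ)}) Q (by simpa using hp.ne_zero)] at h2
  have h3 : (r : 𝓞 (KK T)) ∈ Q := by simpa using (hrQ r).mpr dvd_rfl
  refine ⟨Q, hQ1, h3, fun h4 => ?_⟩
  refine (ramificationIdx'_ne_one_iff ?_).mpr ?_ h2.symm <;>
    simpa [map_span, span_le]

theorem KK_mono {T U : Finset (ℕ × ℤ)} (h : ∀ g ∈ T, rts g ⊆ KK U) : KK T ≤ KK U :=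
  adjoin_le_iff.mpr fun _ ⟨g, h1, h2⟩ => h g h1 h2

theorem deg_core {T : Finset (ℕ × ℤ)} {g : ℕ × ℤ} {z : Om}
    (hz1 : z ∈ KK T ⊔ adjoin ℚ (rts g)) (hz2 : rts g ⊆ (KK T)⟮z⟯) (hz3 : IsIntegral (KK T) z) :
    finrank ℚ (KK (insert g T)) = finrank ℚ (KK T) * (minpoly (KK T) z).natDegree := by
  have e1 : KK (insert g T) = KK T ⊔ adjoin ℚ (rts g) := by
    rw [KK, KK, ← adjoin_union]
    congr 1
    ext w
    simp [or_comm]
  have e2 : KK (insert g T) = IntermediateField.restrictScalars ℚ (KK T)⟮z⟯ := by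
    rw [e1]
    refine le_antisymm (sup_le (fun w hw => ?_) (adjoin_le_iff.mpr hz2)) ?_
    · exact (KK T)⟮z⟯.algebraMap_mem ⟨w, hw⟩
    · exact (restrictScalars_adjoin_eq_sup ℚ (KK T) {z}).le.trans
        (sup_le le_sup_left (adjoin_simple_le_iff.mpr hz1))
  rw [e2, ← adjoin.finrank hz3]
  exact (Module.finrank_mul_finrank ℚ (KK T) (KK T)⟮z⟯).symm

theorem deg_step' {T : Finset (ℕ × ℤ)} {g : ℕ × ℤ} {l : ℕ} (hs : Step (KK T) g l)
    (h : ¬ rts g ⊆ KK T) : finrank ℚ (KK (insert g T)) = finrank ℚ (KK T) * l := by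
  obtain ⟨z, hz1, hz2, hz3, hz4⟩ := hs
  rw [deg_core hz1 hz2 hz3, hz4 fun hz => h fun w hw => ?_]
  have h6 : (KK T)⟮z⟯ ≤ ⊥ := adjoin_simple_le_iff.mpr (mem_bot.mpr ⟨⟨z, hz⟩, rfl⟩)
  obtain ⟨y, rfl⟩ := mem_bot.mp (h6 (hz2 hw))
  exact y.2

theorem deg_zeta {T : Finset (ℕ × ℤ)} {l : ℕ} (hl : l.Prime)
    (h1 : ∀ g ∈ T, ¬ l ∣ g.1 ∧ ¬ (l : ℤ) ∣ g.2) :
    finrank ℚ (KK (insert (l, 1) T)) = finrank ℚ (KK T) * (l - 1) := by
  have := Fact.mk hl
  have := nf_KK (T := T) fun g hg => Nat.pos_of_ne_zero fun e => (h1 g hg).1 (e ▸ dvd_zero l)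
  obtain ⟨Q, hQ1, hQ2, hQ3⟩ := unram hl h1
  obtain ⟨ζ, hζ⟩ := HasEnoughRootsOfUnity.exists_primitiveRoot Om l
  let f : ℤ[X] := (cyclotomic l ℤ).comp (X + 1)
  have hf : f.Monic := by
    rw [show f = (cyclotomic l ℤ).comp (X + C 1) by simp [f]]
    exact (cyclotomic.monic l ℤ).comp (monic_X_add_C 1) (by rw [natDegree_X_add_C]; simp)
  have hd : f.natDegree = l - 1 := by
    rw [show f = (cyclotomic l ℤ).comp (X + C 1) by simp [f], natDegree_comp, natDegree_X_add_C,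
      natDegree_cyclotomic, Nat.totient_prime hl, mul_one]
  have h0 : f.coeff 0 = l := by
    rw [coeff_zero_eq_eval_zero, eval_comp]
    simp [eval_one_cyclotomic_prime]
  have he : f.IsEisensteinAt (span {(l : ℤ)}) := cyclotomic_comp_X_add_one_isEisensteinAt l
  have hm := hf.map (algebraMap ℤ (𝓞 (KK T)))
  have hd' := hf.natDegree_map (algebraMap ℤ (𝓞 (KK T)))
  have he' : (f.map (algebraMap ℤ (𝓞 (KK T)))).IsEisensteinAt Q :=
    hm.isEisensteinAt_of_mem_of_notMem hQ1.ne_top (fun {n} hn => by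
      obtain ⟨c, hc⟩ := mem_span_singleton.mp (he.mem (hd' ▸ hn))
      rw [coeff_map, hc, map_mul, map_natCast]
      exact Q.mul_mem_right _ hQ2) (by rwa [coeff_map, h0, map_natCast])
  have hi := (hm.irreducible_iff_irreducible_map_fraction_map (K := KK T)).mp
    (he'.irreducible hQ1 hm.isPrimitive (by rw [hd', hd]; exact Nat.sub_pos_of_lt hl.one_lt))
  have hm' := hm.map (algebraMap (𝓞 (KK T)) (KK T))
  have ha : aeval (ζ - 1) ((f.map (algebraMap ℤ (𝓞 (KK T)))).map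
      (algebraMap (𝓞 (KK T)) (KK T))) = 0 := by
    rw [Polynomial.map_map, show (algebraMap (𝓞 (KK T)) (KK T)).comp (algebraMap ℤ (𝓞 (KK T))) =
      algebraMap ℤ (KK T) from RingHom.ext_int _ _, aeval_map_algebraMap, aeval_comp]
    simp only [map_add, aeval_X, map_one, sub_add_cancel]
    rw [aeval_def, eval₂_eq_eval_map, map_cyclotomic]
    exact hζ.isRoot_cyclotomic hl.pos
  have h4 : ζ ∈ KK T ⊔ adjoin ℚ (rts (l, 1)) := le_sup_right (α := IntermediateField ℚ Om)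
    (subset_adjoin _ _ (by simpa [rts] using hζ.pow_eq_one))
  rw [deg_core (z := ζ - 1) (sub_mem h4 (one_mem _)) (fun w hw => ?_) ⟨_, hm', ha⟩,
    ← minpoly.eq_of_irreducible_of_monic hi ha hm', hm.natDegree_map, hd', hd]
  obtain ⟨i, -, hi⟩ := hζ.eq_pow_of_pow_eq_one (ξ := w) (by simpa [rts] using hw)
  rw [← hi]
  simpa using pow_mem (add_mem (mem_adjoin_simple_self (KK T) (ζ - 1)) (one_mem _)) i

theorem not_sub {T : Finset (ℕ × ℤ)} {r l : ℕ} (hp : r.Prime) (hl : 2 ≤ l)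
    (h1 : ∀ g ∈ T, ¬ r ∣ g.1 ∧ ¬ (r : ℤ) ∣ g.2) : ¬ rts (l, r) ⊆ KK T := fun h => by
  obtain ⟨Q, hQ1, hQ2, hQ3⟩ := unram hp h1
  obtain ⟨z, hz⟩ := ex_rt (l, r) (by omega : 0 < l)
  have inj : Function.Injective (algebraMap (KK T) Om) := (algebraMap (KK T) Om).injective
  let t : 𝓞 (KK T) := ⟨⟨z, h hz⟩,
    (isIntegral_algebraMap_iff inj).mp (rts_int (by omega : 0 < l) hz)⟩
  have inj' : Function.Injective ((algebraMap (KK T) Om).comp (algebraMap (𝓞 (KK T)) (KK T))) :=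
    inj.comp RingOfIntegers.coe_injective
  have e1 : t ^ l = r := inj' (by
    rw [map_pow, map_natCast]
    exact hz.trans (Int.cast_natCast r))
  rw [← e1] at hQ2 hQ3
  exact hQ3 (Ideal.pow_le_pow_right hl (Ideal.pow_mem_pow (hQ1.mem_of_pow_mem _ hQ2) l))

theorem step_prime {K : IntermediateField ℚ Om} {l : ℕ} (hl : l.Prime) {a : ℤ} (ha : a ≠ 0)
    (h1 : rts (l, 1) ⊆ K) : Step K (l, a) l := by
  have := Fact.mk hl
  obtain ⟨ζ, hζ⟩ := HasEnoughRootsOfUnity.exists_primitiveRoot Om l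
  exact step_gen hl hl.pos dvd_rfl ha
    (h1 (by simpa [rts] using hζ.pow_eq_one)) hζ fun z hz => hz ▸ intCast_mem _ _

/-- adjoining the `l`-th roots of the prime `r` -/
theorem deg_rad {T W : Finset (ℕ × ℤ)} {r l : ℕ} (hp : r.Prime) (hl : l.Prime)
    (hW : (l, 1) ∈ W) (h1 : ∀ g ∈ W, ¬ r ∣ g.1 ∧ ¬ (r : ℤ) ∣ g.2) (h2 : ∀ g ∈ T, 0 < g.1)
    (h3 : ¬ l ∣ finrank ℚ (KK T))
    (h4 : finrank ℚ (KK (W ∪ T)) = finrank ℚ (KK T) * finrank ℚ (KK W)) :
    finrank ℚ (KK (insert (l, (r : ℤ)) W)) = finrank ℚ (KK W) * l ∧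
      finrank ℚ (KK (insert (l, (r : ℤ)) W ∪ T)) =
        finrank ℚ (KK T) * finrank ℚ (KK (insert (l, (r : ℤ)) W)) := by
  have hr : (r : ℤ) ≠ 0 := Int.natCast_ne_zero.mpr hp.ne_zero
  have hW0 : ∀ g ∈ W, 0 < g.1 := fun g hg =>
    Nat.pos_of_ne_zero fun e => (h1 g hg).1 (e ▸ dvd_zero r)
  have e1 := deg_step' (step_prime hl hr fun z hz => mem_KK hW hz) (not_sub hp hl.two_le h1)
  refine ⟨e1, ?_⟩
  have := nf_KK hW0
  have := nf_KK (T := W ∪ T) fun g hg => (Finset.mem_union.mp hg).elim (hW0 g) (h2 g)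
  rw [Finset.insert_union, deg_step' (step_prime hl hr fun z hz =>
    mem_KK (Finset.mem_union_left _ hW) hz) fun h => h3 ?_, h4, e1, mul_assoc]
  have h5 := finrank_dvd_of_le_right (KK_mono (T := insert (l, (r : ℤ)) W) (U := W ∪ T)
    (Finset.forall_mem_insert _ _ _ |>.mpr
      ⟨h, fun g hg z hz => mem_KK (Finset.mem_union_left _ hg) hz⟩))
  rw [e1, h4, mul_comm (finrank ℚ (KK T))] at h5
  exact Nat.dvd_of_mul_dvd_mul_left Module.finrank_pos h5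

end Pool.Agent.P.MP_2ac10d_nt
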