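import Pool.Agent.P.MP_2ac10d_nt.DG

/-! Independence of the blocks of different primes. -/

namespace Pool.Agent.P.MP_2ac10d_nt

open NumberField IntermediateField Module
open scoped Classical

/-- all the binomials of `T` split modulo `p` -/
noncomputable def ind (T : Finset (ℕ × ℤ)) (p : ℕ) : ℝ := if ∀ g ∈ T, Ev g p then 1 else 0

theorem ind_union (T U : Finset (ℕ × ℤ)) (p : ℕ) : ind (T ∪ U) p = ind T p * ind U p := by
  unfold ind
  by_cases h1 : ∀ g ∈ T, Ev g p <;> by_cases h2 : ∀ g ∈ U, Ev g p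
  · rw [if_pos h1, if_pos h2, if_pos (Finset.forall_mem_union.mpr ⟨h1, h2⟩), one_mul]
  · rw [if_neg h2, if_neg fun e => h2 (Finset.forall_mem_union.mp e).2, mul_zero]
  · rw [if_neg h1, if_neg fun e => h1 (Finset.forall_mem_union.mp e).1, zero_mul]
  · rw [if_neg h1, if_neg fun e => h1 (Finset.forall_mem_union.mp e).1, zero_mul]

theorem hasD_ind {T : Finset (ℕ × ℤ)} (h : ∀ g ∈ T, g.1 ≠ 0 ∧ g.2 ≠ 0) :
    HasD (ind T) (1 / finrank ℚ (KK T)) := by
  have := nf_KK (T := T) fun g hg => Nat.pos_of_ne_zero (h g hg).1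
  have := gal_KK T
  refine (hasD_spl (KK T)).congr (B := 1) (fun p => by unfold ind; split_ifs <;> simp)
    (∑ g ∈ T, (g.1 + g.2.natAbs) + 1) fun p hp hM => ?_
  have h1 : ∀ g ∈ T, ¬ p ∣ g.1 ∧ ¬ (p : ℤ) ∣ g.2 := fun g hg => by
    have := Finset.single_le_sum (f := fun g : ℕ × ℤ => g.1 + g.2.natAbs)
      (fun _ _ => Nat.zero_le _) hg
    exact ⟨Nat.not_dvd_of_pos_of_lt (Nat.pos_of_ne_zero (h g hg).1) (by omega),
      fun e => Nat.not_dvd_of_pos_of_lt (Int.natAbs_pos.mpr (h g hg).2) (by omega)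
        (Int.natCast_dvd.mp e)⟩
  exact if_congr ⟨fun hs g hg => ev_of_spl (fun z hz => mem_KK hg hz) hp (h1 g hg).1 (h1 g hg).2 hs,
    fun hs => spl_of_ev hp (fun g hg => (h1 g hg).1) hs⟩ rfl rfl

/-- the data and the degree of `T` involve only primes below `l` -/
def Small (l : ℕ) (T : Finset (ℕ × ℤ)) : Prop :=
  ∀ r : ℕ, r.Prime → l ≤ r → (∀ g ∈ T, ¬ r ∣ g.1 ∧ ¬ (r : ℤ) ∣ g.2) ∧ ¬ r ∣ finrank ℚ (KK T)

/-- `U` multiplies the degree of every small tower by `c` -/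
def Indep (l : ℕ) (U : Finset (ℕ × ℤ)) (c : ℕ) : Prop :=
  (∀ g ∈ U, g.1 ≠ 0 ∧ g.2 ≠ 0) ∧ ∀ T, Small l T → finrank ℚ (KK (U ∪ T)) = finrank ℚ (KK T) * c

/-- `f` has density `δ` independently of all later events -/
def Good (l : ℕ) (f : ℕ → ℝ) (δ : ℝ) : Prop :=
  ∀ U c, Indep l U c → HasD (fun p => f p * ind U p) (δ / c)

theorem Small.ne {l : ℕ} {T : Finset (ℕ × ℤ)} (h : Small l T) : ∀ g ∈ T, g.1 ≠ 0 ∧ g.2 ≠ 0 := by
  obtain ⟨r, h1, h2⟩ := Nat.exists_infinite_primes l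
  exact fun g hg => ⟨fun e => ((h r h2 h1).1 g hg).1 (e ▸ dvd_zero _),
    fun e => ((h r h2 h1).1 g hg).2 (e ▸ dvd_zero _)⟩

theorem Good.mono {l m : ℕ} {f : ℕ → ℝ} {δ : ℝ} (h : Good l f δ) (hl : l ≤ m) : Good m f δ :=
  fun U c hU => h U c ⟨hU.1, fun T hT => hU.2 T fun r h1 h2 => hT r h1 (hl.trans h2)⟩

theorem Good.of_eq {l : ℕ} {f g : ℕ → ℝ} {a b : ℝ} (h : Good l f a) (h1 : ∀ p, f p = g p)
    (h2 : a = b) : Good l g b := by
  rwa [← funext h1, ← h2]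

theorem Good.hasD {l : ℕ} {f : ℕ → ℝ} {δ : ℝ} (h : Good l f δ) : HasD f δ := by
  simpa [ind] using h ∅ 1 ⟨by simp, fun T _ => by rw [Finset.empty_union, mul_one]⟩

theorem Good.add {l : ℕ} {f g : ℕ → ℝ} {a b : ℝ} (hf : Good l f a) (hg : Good l g b) :
    Good l (fun p => f p + g p) (a + b) := fun U c hU => by
  simpa only [add_mul, add_div] using (hf U c hU).add (hg U c hU)

theorem Good.smul {l : ℕ} {f : ℕ → ℝ} {a : ℝ} (b : ℝ) (hf : Good l f a) :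
    Good l (fun p => b * f p) (b * a) := fun U c hU => by
  simpa only [mul_assoc, mul_div_assoc] using (hf U c hU).smul b

theorem good_ind {l : ℕ} {T : Finset (ℕ × ℤ)} (h : Small l T) :
    Good l (ind T) (1 / finrank ℚ (KK T)) := fun U c hU => by
  have h1 := hasD_ind (T := U ∪ T) (Finset.forall_mem_union.mpr ⟨hU.1, h.ne⟩)
  rw [hU.2 T h, Nat.cast_mul, ← div_div] at h1
  exact (funext fun p => by rw [ind_union, mul_comm] : ind (U ∪ T) = _) ▸ h1

theorem Good.blk {l c : ℕ} {f : ℕ → ℝ} {δ : ℝ} {V : Finset (ℕ × ℤ)} (h : Good l f δ)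
    (h1 : Indep l V c) (h2 : ∀ T, Small l T → Small (l + 1) (V ∪ T)) :
    Good (l + 1) (fun p => f p * ind V p) (δ / c) := fun U c' hU => by
  have := h (U ∪ V) (c * c') ⟨Finset.forall_mem_union.mpr ⟨hU.1, h1.1⟩, fun T hT => by
    rw [Finset.union_assoc, hU.2 _ (h2 T hT), h1.2 T hT, mul_assoc]⟩
  rw [Nat.cast_mul, ← div_div] at this
  simpa only [ind_union, mul_assoc, mul_comm (ind U _)] using this

theorem good_blk {l : ℕ} (hl : l.Prime) (h5 : 5 ≤ l) {f : ℕ → ℝ} {δ : ℝ} (h : Good l f δ)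
    {V : Finset (ℕ × ℤ)} (hV : ∀ g ∈ V, g.1 = l ∧ (g.2 = 1 ∨ g.2 = 2 ∨ g.2 = 3)) {k : ℕ}
    (hd : ∀ T, Small l T → finrank ℚ (KK (V ∪ T)) = finrank ℚ (KK T) * ((l - 1) * l ^ k)) :
    Good (l + 1) (fun p => f p * ind V p) (δ / ((l - 1) * l ^ k)) := by
  have := h.blk (V := V) (c := (l - 1) * l ^ k) ⟨fun g hg => by
    have := hV g hg
    omega, hd⟩ fun T hT r hr hlr => ⟨Finset.forall_mem_union.mpr ⟨fun g hg => ?_,
      (hT r hr (by omega)).1⟩, ?_⟩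
  · rwa [Nat.cast_mul, Nat.cast_pow, Nat.cast_pred hl.pos] at this
  · obtain ⟨e1, e2⟩ := hV g hg
    refine ⟨e1 ▸ Nat.not_dvd_of_pos_of_lt hl.pos hlr, fun e => ?_⟩
    have := Int.le_of_dvd (by omega) e
    omega
  · rw [hd T hT, hr.dvd_mul, hr.dvd_mul]
    rintro (e | e | e)
    · exact (hT r hr (by omega)).2 e
    · exact Nat.not_dvd_of_pos_of_lt (by omega) (by omega) e
    · exact Nat.not_dvd_of_pos_of_lt hl.pos hlr (hr.dvd_of_dvd_pow e)

theorem KK_empty : finrank ℚ (KK ∅) = 1 := by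
  have : KK ∅ = ⊥ := by simp [KK]
  rw [this]
  exact IntermediateField.finrank_bot

theorem blocks {l : ℕ} (hl : l.Prime) (h5 : 5 ≤ l) {T : Finset (ℕ × ℤ)} (hT : Small l T) :
    finrank ℚ (KK ({(l, 2), (l, 1)} ∪ T)) = finrank ℚ (KK T) * ((l - 1) * l ^ 1) ∧
    finrank ℚ (KK ({(l, 3), (l, 1)} ∪ T)) = finrank ℚ (KK T) * ((l - 1) * l ^ 1) ∧
    finrank ℚ (KK ({(l, 3), (l, 2), (l, 1)} ∪ T)) = finrank ℚ (KK T) * ((l - 1) * l ^ 2) := by
  have n2 : ¬ 2 ∣ l := fun e => by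
    have := (Nat.prime_dvd_prime_iff_eq Nat.prime_two hl).mp e
    omega
  have n3 : ¬ 3 ∣ l := fun e => by
    have := (Nat.prime_dvd_prime_iff_eq Nat.prime_three hl).mp e
    omega
  have h0 : finrank ℚ (KK {(l, 1)}) = l - 1 := by
    have := deg_zeta (T := ∅) hl (by simp)
    rwa [KK_empty, one_mul] at this
  have h1 : finrank ℚ (KK ({(l, 1)} ∪ T)) = finrank ℚ (KK T) * finrank ℚ (KK {(l, 1)}) := by
    rw [h0, ← Finset.insert_eq]
    exact deg_zeta hl (hT l hl le_rfl).1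
  have hp : ∀ g ∈ T, 0 < g.1 := fun g hg => Nat.pos_of_ne_zero (hT.ne g hg).1
  have h2 := deg_rad (W := {(l, 1)}) Nat.prime_two hl (by simp) (by simpa using n2) hp
    (hT l hl le_rfl).2 h1
  have h3 := deg_rad (W := {(l, 1)}) Nat.prime_three hl (by simp) (by simpa using n3) hp
    (hT l hl le_rfl).2 h1
  have h4 := deg_rad (W := {(l, ((2 : ℕ) : ℤ)), (l, 1)}) Nat.prime_three hl (by simp)
    (by simp [n3]) hp (hT l hl le_rfl).2 h2.2
  rw [h0] at h2 h3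
  refine ⟨h2.2.trans (by rw [h2.1, pow_one]), h3.2.trans (by rw [h3.1, pow_one]), h4.2.trans ?_⟩
  rw [h4.1, h2.1, mul_assoc, sq]

/-- the factor of the prime `l` -/
noncomputable def fac (l p : ℕ) : ℝ :=
  if l.Prime ∧ 5 ≤ l then
    if Ev (2, 6) l then 1 + (-1 * ind {(l, 2), (l, 1)} p + ind {(l, 3), (l, 2), (l, 1)} p)
    else 1 + (-1 * ind {(l, 2), (l, 1)} p + (-1 * ind {(l, 3), (l, 1)} p +
      2 * ind {(l, 3), (l, 2), (l, 1)} p))
  else 1

/-- its density -/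
def dq (l : ℕ) : ℚ :=
  if l.Prime ∧ 5 ≤ l then
    if 2 ∣ l - 1 ∧ (l : ℤ) ∣ 6 ^ ((l - 1) / 2) - 1 then 1 - 1 / (l : ℚ) ^ 2 else 1 - 2 / (l : ℚ) ^ 2
  else 1

theorem Good.fac {l : ℕ} {f : ℕ → ℝ} {δ : ℝ} (h : Good l f δ) :
    Good (l + 1) (fun p => f p * fac l p) (δ * dq l) := by
  unfold Pool.Agent.P.MP_2ac10d_nt.fac dq
  by_cases hl : l.Prime ∧ 5 ≤ l
  · simp only [if_pos hl]
    have h1 := good_blk hl.1 hl.2 h (by simp) fun T hT => (blocks hl.1 hl.2 hT).1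
    have h2 := good_blk hl.1 hl.2 h (by simp) fun T hT => (blocks hl.1 hl.2 hT).2.1
    have h3 := good_blk hl.1 hl.2 h (by simp) fun T hT => (blocks hl.1 hl.2 hT).2.2
    have h0 := h.mono l.le_succ
    have l5 : (5 : ℝ) ≤ l := by exact_mod_cast hl.2
    have l1 : (l : ℝ) - 1 ≠ 0 := by linarith
    have l0 : (l : ℝ) ≠ 0 := by linarith
    by_cases he : Ev (2, 6) l
    · have := h0.add ((h1.smul (-1)).add h3)
      rw [if_pos ((ev_iff _ _).mp he)]
      simp only [if_pos he]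
      refine this.of_eq (fun p => by ring) ?_
      push_cast
      field_simp
      ring
    · have := h0.add ((h1.smul (-1)).add ((h2.smul (-1)).add (h3.smul 2)))
      rw [if_neg (mt (ev_iff (2, 6) l).mpr he)]
      simp only [if_neg he]
      refine this.of_eq (fun p => by ring) ?_
      push_cast
      field_simp
      ring
  · simpa only [if_neg hl, mul_one, Rat.cast_one] using h.mono l.le_succ

theorem Good.prod {f : ℕ → ℝ} {δ : ℝ} (h : Good 5 f δ) (n : ℕ) :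
    Good (5 + n) (fun p => f p * ∏ i ∈ Finset.range n, Pool.Agent.P.MP_2ac10d_nt.fac (5 + i) p)
      (δ * (∏ i ∈ Finset.range n, dq (5 + i) : ℚ)) := by
  induction n with
  | zero => simpa using h
  | succ n ih =>
    simpa only [Finset.prod_range_succ, Rat.cast_mul, mul_assoc, add_assoc] using ih.fac

end Pool.Agent.P.MP_2ac10d_nt
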