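import Pool.Agent.P.MP_2ac10d_nt.DH

/-! The blocks of 2 and 3, and the density bound 7/10. -/

namespace Pool.Agent.P.MP_2ac10d_nt

open NumberField IntermediateField Module Filter Topology
open scoped Classical

section

variable {K : IntermediateField ℚ Om}

theorem ex_omega (h1 : rts (2, -3) ⊆ K) : ∃ w ∈ K, IsPrimitiveRoot w 3 := by
  obtain ⟨v, hv⟩ := ex_rt (2, -3) two_pos
  have hv2 : v ^ 2 = -3 := by simpa [rts] using hv
  refine ⟨_, div_mem (sub_mem (h1 hv) (one_mem _)) (ofNat_mem K 2), ?_⟩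
  rw [IsPrimitiveRoot.iff_orderOf]
  have : Fact (Nat.Prime 3) := ⟨Nat.prime_three⟩
  refine orderOf_eq_prime (by linear_combination (v - 3) / 8 * hv2) fun e => ?_
  have : v = 3 := by linear_combination 2 * e
  rw [this] at hv2
  norm_num at hv2

theorem step_nine_one (h1 : rts (2, -3) ⊆ K) : Step K (9, 1) 3 := by
  obtain ⟨w, hw, hw3⟩ := ex_omega h1
  obtain ⟨ζ, hζ⟩ := HasEnoughRootsOfUnity.exists_primitiveRoot Om 9
  refine step_rad (z := ζ) Nat.prime_three (le_sup_right (α := IntermediateField ℚ Om)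
    (subset_adjoin _ _ (by simpa [rts] using hζ.pow_eq_one))) (fun u hu => ?_) ?_ hw hw3
  · obtain ⟨i, -, hi⟩ := hζ.eq_pow_of_pow_eq_one (ξ := u) (by simpa [rts] using hu)
    rw [← hi]
    exact pow_mem (mem_adjoin_simple_self _ _) _
  · obtain ⟨i, -, hi⟩ := hw3.eq_pow_of_pow_eq_one (ξ := ζ ^ 3) (by rw [← pow_mul, hζ.pow_eq_one])
    rw [← hi]
    exact pow_mem hw _

theorem step_nine {a : ℤ} (ha : a ≠ 0) (h0 : rts (3, a) ⊆ K) (h1 : rts (9, 1) ⊆ K) :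
    Step K (9, a) 3 := by
  obtain ⟨ζ, hζ⟩ := HasEnoughRootsOfUnity.exists_primitiveRoot Om 9
  exact step_gen Nat.prime_three (by norm_num) (by norm_num) ha
    (h1 (by simpa [rts] using hζ.pow_eq_one)) hζ
    fun z hz => h0 (show (z ^ 3) ^ 3 = a by rw [← pow_mul, hz])

end

/-- the radicals -/
def gn (i : ℕ) : ℕ × ℤ :=
  [(2, 6), (2, -3), (2, -1), (4, 6), (4, 2), (8, 6), (3, 2), (3, 3), (9, 1), (9, 2),
    (9, 3)].getD i (1, 1)

/-- their relative degrees -/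
def dn (i : ℕ) : ℕ := [2, 2, 2, 2, 2, 2, 3, 3, 3, 3, 3].getD i 1

/-- what has to be adjoined first -/
def pn (i : ℕ) : List ℕ :=
  [[], [], [], [0, 2], [0, 1, 2], [0, 1, 2, 3], [1], [1], [1], [6, 8], [7, 8]].getD i []

/-- the witness primes -/
def wn (i : ℕ) : ℕ := [11, 23, 19, 73, 97, 937, 577, 601, 11113, 102241, 63577].getD i 2

theorem step_gn {i : ℕ} (hi : i < 11) {K : IntermediateField ℚ Om}
    (h : ∀ j ∈ pn i, rts (gn j) ⊆ K) : Step K (gn i) (dn i) := by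
  interval_cases i
  · exact step_two (by norm_num)
  · exact step_two (by norm_num)
  · exact step_two (by norm_num)
  · exact step_four (by norm_num) (h 0 (by decide)) (h 2 (by decide))
  · exact step_four (by norm_num)
      (sqrt_two (h 0 (by decide)) (h 1 (by decide)) (h 2 (by decide))) (h 2 (by decide))
  · exact step_eight (by norm_num) (h 3 (by decide))
      (sqrt_two (h 0 (by decide)) (h 1 (by decide)) (h 2 (by decide))) (h 2 (by decide))
  · exact step_three (by norm_num) (h 1 (by decide))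
  · exact step_three (by norm_num) (h 1 (by decide))
  · exact step_nine_one (h 1 (by decide))
  · exact step_nine (by norm_num) (h 6 (by decide)) (h 8 (by decide))
  · exact step_nine (by norm_num) (h 7 (by decide)) (h 8 (by decide))

theorem wn_ev : ∀ i < 11, (∀ j < i, Ev (gn j) (wn i)) ∧ ¬ Ev (gn i) (wn i) := by
  simp only [ev_iff]
  decide +kernel

theorem wn_prime {i : ℕ} (hi : i < 11) : (wn i).Prime ∧ 5 ≤ wn i := by
  interval_cases i <;> simp only [wn, List.getD_cons_succ, List.getD_cons_zero] <;> norm_num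

theorem gn_bd : ∀ i < 11, (gn i).1 ∣ 6 ^ 3 ∧ (gn i).2.natAbs ∣ 6 ^ 3 ∧ dn i ∣ 6 ^ 3 ∧
    ∀ j ∈ pn i, j < i := by decide

theorem nd_six {p : ℕ} (hp : p.Prime) (h5 : 5 ≤ p) : ¬ p ∣ 6 ^ 3 := fun h => by
  rcases hp.dvd_mul.mp (show p ∣ 2 * 3 from hp.dvd_of_dvd_pow h) with e | e <;>
    have := Nat.le_of_dvd (by norm_num) e <;> omega

theorem gn_nd {i p : ℕ} (hi : i < 11) (hp : p.Prime) (h5 : 5 ≤ p) :
    ¬ p ∣ (gn i).1 ∧ ¬ (p : ℤ) ∣ (gn i).2 :=
  ⟨fun h => nd_six hp h5 (h.trans (gn_bd i hi).1),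
    fun h => nd_six hp h5 ((Int.natCast_dvd.mp h).trans (gn_bd i hi).2.1)⟩

theorem deg_gn (S : Finset ℕ) : (∀ i ∈ S, i < 11 ∧ ∀ j ∈ pn i, j ∈ S) →
    finrank ℚ (KK (S.image gn)) = ∏ i ∈ S, dn i := by
  induction S using Finset.induction_on_max with
  | empty => exact fun _ => KK_empty
  | insert a S ha ih =>
    intro h
    have h1 : ∀ i ∈ insert a S, i ≤ a → ∀ j ∈ pn i, j ∈ S := fun i hi hia j hj =>
      (Finset.mem_insert.mp ((h i hi).2 j hj)).resolve_left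
        (((gn_bd i (h i hi).1).2.2.2 j hj).trans_le hia).ne
    have h2 := (h a (Finset.mem_insert_self _ _)).1
    have h3 := wn_prime h2
    rw [Finset.image_insert, Finset.prod_insert fun e => lt_irrefl _ (ha a e), mul_comm,
      ← ih fun i hi => ⟨(h i (Finset.mem_insert_of_mem hi)).1,
        h1 i (Finset.mem_insert_of_mem hi) (ha i hi).le⟩]
    refine deg_step (step_gn h2 fun j hj z hz => mem_KK (Finset.mem_image_of_mem _
      (h1 a (Finset.mem_insert_self _ _) le_rfl j hj)) hz) h3.1 ?_ ?_ (gn_nd h2 h3.1 h3.2).1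
      (gn_nd h2 h3.1 h3.2).2 (wn_ev a h2).2
    · simp only [Finset.forall_mem_image]
      exact fun j hj => (gn_nd ((ha j hj).trans h2) h3.1 h3.2).1
    · simp only [Finset.forall_mem_image]
      exact fun j hj => (wn_ev a h2).1 j (ha j hj)

/-- indicator of the `i`-th event -/
noncomputable def en (p i : ℕ) : ℝ := if Ev (gn i) p then 1 else 0

theorem good_list (L : List ℕ) (h0 : L.Nodup) (h : ∀ i ∈ L, i < 11 ∧ ∀ j ∈ pn i, j ∈ L) :
    Good 5 (fun p => (L.map (en p)).prod) (1 / ((L.map dn).prod : ℕ)) := by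
  have h' : ∀ i ∈ L.toFinset, i < 11 ∧ ∀ j ∈ pn i, j ∈ L.toFinset := by simpa using h
  have h1 := good_ind (l := 5) (T := L.toFinset.image gn) fun r hr h5 => ⟨by
    simp only [Finset.forall_mem_image]
    exact fun j hj => gn_nd (h' j hj).1 hr h5, by
    rw [deg_gn _ h', hr.prime.dvd_finsetProd_iff]
    exact fun ⟨j, hj, e⟩ => nd_six hr h5 (e.trans (gn_bd j (h' j hj).1).2.2.1)⟩
  refine h1.of_eq (fun p => ?_) (by rw [deg_gn _ h', List.prod_toFinset _ h0])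
  rw [← List.prod_toFinset _ h0, ind]
  simp only [Finset.forall_mem_image]
  rw [← Finset.prod_boole]
  rfl

theorem good_terms (X : List (ℤ × List ℕ))
    (h : ∀ t ∈ X, t.2.Nodup ∧ ∀ i ∈ t.2, i < 11 ∧ ∀ j ∈ pn i, j ∈ t.2) :
    Good 5 (fun p => (X.map fun t => (t.1 : ℝ) * (t.2.map (en p)).prod).sum)
      (X.map fun t => (t.1 : ℝ) * (1 / ((t.2.map dn).prod : ℕ))).sum := by
  induction X with
  | nil => exact fun U c _ => by simpa using hasD_zero
  | cons t X ih =>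
    simp only [List.map_cons, List.sum_cons]
    exact ((good_list t.2 (h t List.mem_cons_self).1 (h t List.mem_cons_self).2).smul _).add
      (ih fun u hu => h u (List.mem_cons_of_mem _ hu))

/-- the expansion of the survivor weight -/
def tn : List (ℤ × List ℕ) :=
  [(1, [0]),
   (-1, [0, 1, 6]),
   (-1, [0, 1, 7]),
   (2, [0, 1, 6, 7]),
   (-1, [0, 1, 6, 7, 8, 9]),
   (-1, [0, 1, 6, 7, 8, 10]),
   (2, [0, 1, 6, 7, 8, 9, 10]),
   (-1, [0, 1, 2]),
   (1, [0, 1, 2, 6]),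
   (1, [0, 1, 2, 7]),
   (-2, [0, 1, 2, 6, 7]),
   (1, [0, 1, 2, 6, 7, 8, 9]),
   (1, [0, 1, 2, 6, 7, 8, 10]),
   (-2, [0, 1, 2, 6, 7, 8, 9, 10]),
   (1, [0, 1, 2, 3]),
   (-1, [0, 1, 2, 3, 6]),
   (-1, [0, 1, 2, 3, 7]),
   (2, [0, 1, 2, 3, 6, 7]),
   (-1, [0, 1, 2, 3, 6, 7, 8, 9]),
   (-1, [0, 1, 2, 3, 6, 7, 8, 10]),
   (2, [0, 1, 2, 3, 6, 7, 8, 9, 10]),
   (-1, [0, 1, 2, 3, 4]),
   (1, [0, 1, 2, 3, 4, 6]),
   (1, [0, 1, 2, 3, 4, 7]),
   (-2, [0, 1, 2, 3, 4, 6, 7]),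
   (1, [0, 1, 2, 3, 4, 6, 7, 8, 9]),
   (1, [0, 1, 2, 3, 4, 6, 7, 8, 10]),
   (-2, [0, 1, 2, 3, 4, 6, 7, 8, 9, 10]),
   (1, [0, 1, 2, 3, 4, 5]),
   (-1, [0, 1, 2, 3, 4, 5, 6]),
   (-1, [0, 1, 2, 3, 4, 5, 7]),
   (2, [0, 1, 2, 3, 4, 5, 6, 7]),
   (-1, [0, 1, 2, 3, 4, 5, 6, 7, 8, 9]),
   (-1, [0, 1, 2, 3, 4, 5, 6, 7, 8, 10]),
   (2, [0, 1, 2, 3, 4, 5, 6, 7, 8, 9, 10])]

/-- the survivor weight at 2 and 3 -/
noncomputable def sn (p : ℕ) : ℝ :=
  en p 0 * (1 - en p 1 * en p 2 * (1 - en p 3 * (1 - en p 4 * (1 - en p 5)))) *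
    (1 - en p 1 * (en p 6 + en p 7 - 2 * en p 6 * en p 7) -
      en p 1 * en p 6 * en p 7 * en p 8 * (en p 9 + en p 10 - 2 * en p 9 * en p 10))

theorem en_cases (p i : ℕ) : en p i = 0 ∨ en p i = 1 := by
  unfold en
  split_ifs <;> simp

theorem good_sn : Good 5 sn (5329 / 15552) := by
  refine (good_terms tn (by decide)).of_eq (fun p => ?_) ?_
  · simp only [tn, sn, List.map_cons, List.sum_cons, List.prod_cons, List.map_nil,
      List.sum_nil, List.prod_nil]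
    push_cast
    rcases en_cases p 1 with e | e <;> rw [e] <;> ring
  · simp only [tn, dn, List.map_cons, List.sum_cons, List.prod_cons, List.map_nil,
      List.sum_nil, List.prod_nil, List.getD_cons_succ, List.getD_cons_zero]
    norm_num

theorem sn_nonneg (p : ℕ) : 0 ≤ sn p := by
  refine mul_nonneg ?_ ?_
  · rcases en_cases p 0 with e0 | e0 <;> rcases en_cases p 1 with e1 | e1 <;>
      rcases en_cases p 2 with e2 | e2 <;> rcases en_cases p 3 with e3 | e3 <;>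
      rcases en_cases p 4 with e4 | e4 <;> rcases en_cases p 5 with e5 | e5 <;>
      rw [e0, e1, e2, e3, e4, e5] <;> norm_num
  · rcases en_cases p 1 with e0 | e0 <;> rcases en_cases p 6 with e1 | e1 <;>
      rcases en_cases p 7 with e2 | e2 <;> rcases en_cases p 8 with e3 | e3 <;>
      rcases en_cases p 9 with e4 | e4 <;> rcases en_cases p 10 with e5 | e5 <;>
      rw [e0, e1, e2, e3, e4, e5] <;> norm_num

theorem ind_two (l p : ℕ) (a : ℤ) : ind {(l, a), (l, 1)} p =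
    (if Ev (l, a) p then 1 else 0) * if Ev (l, 1) p then 1 else 0 := by
  by_cases h1 : Ev (l, a) p <;> by_cases h2 : Ev (l, 1) p <;> simp [ind, h1, h2]

theorem ind_three (l p : ℕ) : ind {(l, 3), (l, 2), (l, 1)} p = (if Ev (l, 3) p then 1 else 0) *
    ((if Ev (l, 2) p then 1 else 0) * if Ev (l, 1) p then 1 else 0) := by
  by_cases h1 : Ev (l, 3) p <;> by_cases h2 : Ev (l, 2) p <;> by_cases h3 : Ev (l, 1) p <;>
    simp [ind, h1, h2, h3]

theorem fac_nonneg (l p : ℕ) : 0 ≤ fac l p := by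
  unfold fac
  rw [ind_two, ind_two, ind_three]
  split_ifs <;> norm_num

section

variable {p n : ℕ} [Fact p.Prime] (hp : 11 ≤ p) (h : (2 : ZMod p) ^ n = 3)

include hp h in
theorem fac_eq {l : ℕ} (hn : l.Prime → 5 ≤ l → ¬ Ev (2, 6) l → ¬ l ∣ n) : fac l p = 1 := by
  unfold fac
  rw [ind_two, ind_two, ind_three]
  by_cases hl : l.Prime ∧ 5 ≤ l
  · rw [if_pos hl]
    have h1 : Ev (l, 2) p → Ev (l, 3) p := ev_up h
    by_cases he : Ev (2, 6) l
    · rw [if_pos he]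
      by_cases e : Ev (l, 2) p
      · simp only [e, h1 e, if_true]
        ring
      · simp [e]
    · have h2 : Ev (l, 3) p → Ev (l, 2) p :=
        ev_down hp h (hl.1.coprime_iff_not_dvd.mpr (hn hl.1 hl.2 he))
      rw [if_neg he]
      by_cases e : Ev (l, 2) p
      · simp only [e, h1 e, if_true]
        ring
      · simp [e, mt h2 e]
  · rw [if_neg hl]

include hp h in
theorem sn_eq (hn : ¬ 2 ∣ n) (hn3 : ¬ 3 ∣ n) : sn p = 1 := by
  have c3 := (Nat.Prime.coprime_iff_not_dvd Nat.prime_three).mpr hn3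
  have h0 : Ev (gn 0) p := ev0 hp h hn
  have h3 : Ev (gn 1) p → Ev (gn 2) p → Ev (gn 3) p := ev3 hp h hn h0
  have h5 : Ev (gn 1) p → Ev (gn 2) p → Ev (gn 4) p → Ev (gn 5) p := ev5 hp h hn h0
  have h6 : Ev (gn 6) p ↔ Ev (gn 7) p := ⟨ev_up h, ev_down hp h c3⟩
  have h7 : Ev (gn 9) p ↔ Ev (gn 10) p := ⟨ev_up h, ev_down hp h (c3.pow_left 2)⟩
  have a1 : en p 1 * en p 2 * (1 - en p 3 * (1 - en p 4 * (1 - en p 5))) = 0 := by
    unfold en
    by_cases e1 : Ev (gn 1) p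
    · by_cases e2 : Ev (gn 2) p
      · by_cases e4 : Ev (gn 4) p
        · simp [h3 e1 e2, h5 e1 e2 e4]
        · simp [h3 e1 e2, e4]
      · simp [e2]
    · simp [e1]
  have a2 : en p 6 + en p 7 - 2 * en p 6 * en p 7 = 0 := by
    unfold en
    by_cases e : Ev (gn 7) p
    · simp only [h6, e, if_true]; norm_num
    · simp [h6, e]
  have a3 : en p 9 + en p 10 - 2 * en p 9 * en p 10 = 0 := by
    unfold en
    by_cases e : Ev (gn 10) p
    · simp only [h7, e, if_true]; norm_num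
    · simp [h7, e]
  rw [sn, a1, a2, a3, en, if_pos h0]
  norm_num

end

theorem sol_flag {n l : ℕ} (h1 : 1 < n) (h2 : 2 ^ n ≡ 3 [MOD n]) (hl : l.Prime) (h5 : 5 ≤ l)
    (he : ¬ Ev (2, 6) l) : ¬ l ∣ n := fun h3 => by
  have := Fact.mk hl
  have h4 : (2 : ZMod l) ^ n = 3 := by
    exact_mod_cast (ZMod.natCast_eq_natCast_iff _ _ _).mpr (h2.of_dvd h3)
  have e2 : 2 ∣ l - 1 := by
    have := hl.eq_two_or_odd
    omega
  refine he ⟨e2, ?_⟩
  show ((6 : ℤ) : ZMod l) ^ ((l - 1) / 2) = 1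
  push_cast
  refine six_pow h4 (sol_odd h1 h2) ?_
  rw [Nat.mul_div_cancel' e2]
  exact ZMod.pow_card_sub_one_eq_one fun e =>
    Nat.not_dvd_of_pos_of_lt two_pos (by omega : 2 < l)
      ((ZMod.natCast_eq_zero_iff 2 l).mp (by exact_mod_cast e))

theorem density_of {f : ℕ → ℝ} {δ c : ℝ} (hf : HasD f δ) (h0 : ∀ p, 0 ≤ f p) (hc0 : 0 ≤ c)
    (hc : c ≤ 1 - δ)
    (h1 : ∀ p n : ℕ, p.Prime → 11 ≤ p → 1 < n → 2 ^ n ≡ 3 [MOD n] → p ∣ n → f p = 1) :
    ∃ C : ℝ, ∀ s : ℝ, 1 < s → c * Real.log (1 / (s - 1)) - C ≤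
    ∑' p : {p : ℕ // p.Prime ∧ ∀ n : ℕ, 1 < n → 2 ^ n ≡ 3 [MOD n] → ¬ p ∣ n},
      ((p : ℕ) : ℝ) ^ (-s) := by
  obtain ⟨⟨B, hB⟩, C, hC⟩ := hasD_one.add (hf.smul (-1))
  let g : ℕ → ℝ := fun p => if ∀ n : ℕ, 1 < n → 2 ^ n ≡ 3 [MOD n] → ¬ p ∣ n then 1 else 0
  have hg : ∀ p, |g p| ≤ max B 1 := fun p => le_max_of_le_right (by
    simp only [g]
    split_ifs <;> simp)
  have he : ∀ s : ℝ, ∑' p : {p : ℕ // p.Prime ∧ ∀ n : ℕ, 1 < n → 2 ^ n ≡ 3 [MOD n] → ¬ p ∣ n},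
      ((p : ℕ) : ℝ) ^ (-s) = F g s := fun s => by
    refine (tsum_subtype {p : ℕ | p.Prime ∧ ∀ n : ℕ, 1 < n → 2 ^ n ≡ 3 [MOD n] → ¬ p ∣ n}
      fun p => (p : ℝ) ^ (-s)).trans (tsum_congr fun p => ?_)
    simp only [g, Set.indicator_apply, Set.mem_ofPred_eq]
    by_cases h1 : p.Prime <;> by_cases h2 : ∀ n : ℕ, 1 < n → 2 ^ n ≡ 3 [MOD n] → ¬ p ∣ n
    · rw [if_pos ⟨h1, h2⟩, if_pos h1, if_pos h2, one_mul]
    · rw [if_neg fun e => h2 e.2, if_pos h1, if_neg h2, zero_mul]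
    · rw [if_neg fun e => h1 e.1, if_neg h1]
    · rw [if_neg fun e => h1 e.1, if_neg h1]
  have hle : ∀ p, p.Prime → 11 ≤ p → 1 + -1 * f p ≤ g p := fun p hp h11 => by
    simp only [g]
    split_ifs with h
    · linarith [h0 p]
    · push Not at h
      obtain ⟨n, h2, h3, h4⟩ := h
      rw [h1 p n hp h11 h2 h3 h4]
      norm_num
  obtain ⟨u, hu, hu'⟩ := (nhdsGT_basis (1 : ℝ)).eventually_iff.mp
    (hC.and (Ioo_mem_nhdsGT one_lt_two))
  obtain ⟨M, hM⟩ : ∃ M : ℝ, ∀ s : ℝ, 1 < s → F (fun n => 1 + -1 * f n) s ≤ F g s + M :=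
    ⟨_, fun s hs => F_le (fun n => (hB n).trans (le_max_left _ _)) hg 11 hle hs⟩
  refine ⟨max (C + M) (c * Real.log (1 / (u - 1))), fun s hs => ?_⟩
  rw [he]
  by_cases hsu : s < u
  · obtain ⟨h2, h3⟩ := hu' ⟨hs, hsu⟩
    have h4 : 0 ≤ Real.log (1 / (s - 1)) :=
      Real.log_nonneg (one_le_one_div (by linarith) (by linarith [h3.2]))
    have h5 := mul_le_mul_of_nonneg_right hc h4
    linarith [(abs_le.mp h2).1, hM s hs, le_max_left (C + M) (c * Real.log (1 / (u - 1)))]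
  · have h1 : Real.log (1 / (s - 1)) ≤ Real.log (1 / (u - 1)) :=
      Real.log_le_log (by apply one_div_pos.mpr; linarith)
        (one_div_le_one_div_of_le (by linarith) (by linarith))
    have h2 : 0 ≤ F g s := by
      rw [← he]
      exact tsum_nonneg fun _ => Real.rpow_nonneg (Nat.cast_nonneg _) _
    linarith [le_max_right (C + M) (c * Real.log (1 / (u - 1))),
      mul_le_mul_of_nonneg_left h1 hc0]

theorem numeric : (5329 / 15552 : ℚ) * ∏ i ∈ Finset.range 195, dq (5 + i) ≤ 3 / 10 := by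
  decide +kernel

theorem density7 : ∃ C : ℝ, ∀ s : ℝ, 1 < s → 7 / 10 * Real.log (1 / (s - 1)) - C ≤
    ∑' p : {p : ℕ // p.Prime ∧ ∀ n : ℕ, 1 < n → 2 ^ n ≡ 3 [MOD n] → ¬ p ∣ n},
      ((p : ℕ) : ℝ) ^ (-s) := by
  refine density_of (good_sn.prod 195).hasD (fun p => mul_nonneg (sn_nonneg p)
    (Finset.prod_nonneg fun _ _ => fac_nonneg _ _)) (by norm_num) ?_
    fun p n hp h11 h1 h2 h3 => ?_
  · have := (Rat.cast_le (K := ℝ)).mpr numeric
    rw [Rat.cast_mul, Rat.cast_div, Rat.cast_div] at this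
    simp only [Rat.cast_ofNat] at this
    linarith
  · have := Fact.mk hp
    have h4 : (2 : ZMod p) ^ n = 3 := by
      exact_mod_cast (ZMod.natCast_eq_natCast_iff _ _ _).mpr (h2.of_dvd h3)
    rw [sn_eq h11 h4 (sol_odd h1 h2) (sol_three h2), one_mul]
    exact Finset.prod_eq_one fun _ _ => fac_eq h11 h4 (sol_flag h1 h2)

end Pool.Agent.P.MP_2ac10d_nt
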